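import Pool.Agent.Mg.F88b4a2.G58a476

/-! Back-and-forth systems with a bound on the number of remaining rounds. -/

namespace Pool.Agent.MP_88b4a2_lc.Rd

open GrL (mem_swap winsIn_mono Ctx)

/-- Products of at most `i` powers of elements of `S`. -/
inductive Wd {A : Type} [Group A] (S : Set A) : ℕ → A → Prop
  | one (i : ℕ) : Wd S i 1
  | mul {i : ℕ} {u s : A} (n : ℤ) : Wd S i u → s ∈ S → Wd S (i + 1) (u * s ^ n)

theorem Wd.succ {A : Type} [Group A] {S : Set A} {i : ℕ} {x : A} (h : Wd S i x) :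
    Wd S (i + 1) x := by
  induction h with
  | one i => exact .one _
  | mul n _ hs ih => exact .mul n ih hs

def Ab {A : Type} [Group A] (S : Set A) : Prop :=
  ∀ x ∈ Subgroup.closure S, ∀ y ∈ Subgroup.closure S, Commute x y

theorem wd_of_mem {A : Type} [Group A] [Finite A] {S : Set A} (hS : Ab S) {i : ℕ}
    (hi : Nat.card A < 2 ^ i) {x : A} (hx : x ∈ Subgroup.closure S) : Wd S i x := by
  have key : ∀ i, ∃ H : Subgroup A, H ≤ Subgroup.closure S ∧ (∀ x ∈ H, Wd S i x) ∧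
      (Subgroup.closure S ≤ H ∨ 2 ^ i ≤ Nat.card H) := fun i => by
    induction i with
    | zero => exact ⟨⊥, bot_le, fun x hx => Subgroup.mem_bot.1 hx ▸ .one _, .inr (by simp)⟩
    | succ i ih =>
      obtain ⟨H, h1, h2, h3⟩ := ih
      by_cases h : Subgroup.closure S ≤ H
      · exact ⟨H, h1, fun x hx => (h2 x hx).succ, .inl h⟩
      obtain ⟨s, hs, hs'⟩ := Set.not_subset.1 fun h' => h ((Subgroup.closure_le H).2 h')
      have hc : ∀ u ∈ H, ∀ n : ℤ, Commute (s ^ n) u := fun u hu n =>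
        (hS s (Subgroup.subset_closure hs) u (h1 hu)).zpow_left n
      let H' : Subgroup A :=
        { carrier := {x | ∃ u ∈ H, ∃ n : ℤ, u * s ^ n = x}
          one_mem' := ⟨1, H.one_mem, 0, by simp⟩
          mul_mem' := by
            rintro _ _ ⟨u, hu, n, rfl⟩ ⟨v, hv, m, rfl⟩
            exact ⟨u * v, H.mul_mem hu hv, n + m, by
              rw [zpow_add, mul_assoc, mul_assoc, ← mul_assoc v, ← (hc v hv n).eq, mul_assoc]⟩
          inv_mem' := by
            rintro _ ⟨u, hu, n, rfl⟩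
            exact ⟨u⁻¹, H.inv_mem hu, -n, by
              rw [mul_inv_rev, ← zpow_neg, (hc _ (H.inv_mem hu) _).eq]⟩ }
      have hle : H ≤ H' := fun u hu => ⟨u, hu, 0, by simp⟩
      refine ⟨H', ?_, ?_, .inr ?_⟩
      · rintro _ ⟨u, hu, n, rfl⟩
        exact mul_mem (h1 hu) (zpow_mem (Subgroup.subset_closure hs) n)
      · rintro _ ⟨u, hu, n, rfl⟩
        exact .mul n (h2 u hu) hs
      · obtain ⟨c, hc⟩ := Subgroup.card_dvd_of_le hle
        have e1 : c ≠ 1 := fun e => hs' ((Subgroup.eq_of_le_of_card_ge hle (by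
          rw [hc, e, mul_one])).ge (⟨1, H.one_mem, 1, by simp⟩ : s ∈ H'))
        have e0 : c ≠ 0 := fun e => (Nat.card_pos (α := H')).ne' (by rw [hc, e, mul_zero])
        rw [hc, pow_succ]
        exact Nat.mul_le_mul (h3.resolve_left h) (by omega)
  obtain ⟨H, -, h2, h3⟩ := key i
  exact h2 x (h3.resolve_right (fun h => (hi.trans_le (h.trans H.card_le_card_group)).false) hx)

def Cj {A : Type} [Group A] (a : A) : Set A := {x | ∃ g, g * a * g⁻¹ = x}

def Pj {G K : Type} [Group G] [Group K] (a y : G × K) : Set (G × K) :=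
  {x | ∃ n : ℤ, a ^ n * y * (a ^ n)⁻¹ = x}

structure BF (G K : Type) [Group G] [Group K] (k t : ℕ) where
  E : ℕ → List (G × K) → Prop
  mono : ∀ {r l l'}, l ⊆ l' → E r l' → E r l
  le : ∀ {r r' l}, r ≤ r' → E r' l → E r l
  eq_iff : ∀ {r l a a' b b'}, E r l → (a, a') ∈ l → (b, b') ∈ l → (a = b ↔ a' = b')
  mul_iff : ∀ {r l a a' b b' c c'}, E r l → (a, a') ∈ l → (b, b') ∈ l → (c, c') ∈ l →
    (a * b = c ↔ a' * b' = c')
  ext : ∀ {r l}, E (r + 1) l → l.length ≤ k → ∃ f : G ≃ K, ∀ g, E r ((g, f g) :: l)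
  big : 8 ≤ k
  zp : 1 ≤ t → ∀ (n : ℤ) {r l a a' b b'}, E r l → (a, a') ∈ l → (b, b') ∈ l →
    (a ^ n = b ↔ a' ^ n = b')
  p1 : 1 ≤ t → ∀ (n : ℕ) {r l a a'}, E r l → (a, a') ∈ l → (a ^ n = 1 ↔ a' ^ n = 1)
  cj : 1 ≤ t → ∀ {r l g g' a a' b b'}, E r l → (g, g') ∈ l → (a, a') ∈ l → (b, b') ∈ l →
    (g * a * g⁻¹ = b ↔ g' * a' * g'⁻¹ = b')
  sp : 2 ≤ t → ∀ {r l a a' b b'}, E r l → (a, a') ∈ l → (b, b') ∈ l → Ab (Cj a) → Ab (Cj a') →
    (b ∈ Subgroup.closure (Cj a) ↔ b' ∈ Subgroup.closure (Cj a'))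

variable {G K : Type} [Group G] [Group K] {k t r : ℕ}

/-- The positions that Spoiler does not win within the given number of rounds. -/
def ofGame (G K : Type) [Group G] [Group K] (k : ℕ) (hk : 8 ≤ k) : BF G K k 0 where
  E r l := ∃ p : Fin (k + 1) → Option (G × K), ¬ WinsIn r p ∧ ∀ x ∈ l, ∃ i, p i = some x
  mono := by
    rintro r l l' h ⟨p, hp, hl⟩
    exact ⟨p, hp, fun x hx => hl x (h hx)⟩
  le := by
    rintro r r' l h ⟨p, hp, hl⟩
    exact ⟨p, fun h' => hp (winsIn_mono k.succ_pos h p h'), hl⟩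
  eq_iff := by
    rintro r l a a' b b' ⟨p, hp, hl⟩ ha hb
    obtain ⟨i, hi⟩ := hl _ ha
    obtain ⟨j, hj⟩ := hl _ hb
    have h0 : IsoOnPebbles p := not_not.mp fun h => hp (winsIn_mono k.succ_pos r.zero_le p h)
    exact h0.1 i j _ _ hi hj
  mul_iff := by
    rintro r l a a' b b' c c' ⟨p, hp, hl⟩ ha hb hc
    obtain ⟨i, hi⟩ := hl _ ha
    obtain ⟨j, hj⟩ := hl _ hb
    obtain ⟨m, hm⟩ := hl _ hc
    have h0 : IsoOnPebbles p := not_not.mp fun h => hp (winsIn_mono k.succ_pos r.zero_le p h)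
    exact h0.2 i j m _ _ _ hi hj hm
  ext := by
    classical
    rintro r l ⟨p, hp, hl⟩ hlen
    choose! idx hidx using hl
    obtain ⟨i, hi⟩ : ∃ i : Fin (k + 1), i ∉ l.toFinset.image idx := by
      by_contra hcon
      push Not at hcon
      have h1 : (Finset.univ : Finset (Fin (k + 1))).card ≤ (l.toFinset.image idx).card :=
        Finset.card_le_card fun x _ => hcon x
      have h2 := Finset.card_image_le (s := l.toFinset) (f := idx)
      have h3 := List.toFinset_card_le l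
      simp only [Finset.card_univ, Fintype.card_fin] at h1
      omega
    have key : ∃ f : G ≃ K, ∀ g, ¬ WinsIn r (Function.update p i (some (g, f g))) := by
      by_contra hcon
      push Not at hcon
      exact hp (Or.inr ⟨i, hcon⟩)
    obtain ⟨f, hf⟩ := key
    refine ⟨f, fun g => ⟨_, hf g, fun x hx => ?_⟩⟩
    rcases List.mem_cons.mp hx with rfl | hx
    · exact ⟨i, by simp⟩
    · refine ⟨idx x, ?_⟩
      have hne : idx x ≠ i := fun h =>
        hi (Finset.mem_image.mpr ⟨x, List.mem_toFinset.mpr hx, h⟩)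
      rw [Function.update_of_ne hne]
      exact hidx x hx
  big := hk
  zp h := absurd h (by omega)
  p1 h := absurd h (by omega)
  cj h := absurd h (by omega)
  sp h := absurd h (by omega)

namespace BF

/-- The reversed system. -/
def symm (B : BF G K k t) : BF K G k t where
  E r l := B.E r (l.map Prod.swap)
  mono h h' := B.mono (List.map_subset _ h) h'
  le := B.le
  eq_iff h ha hb := (B.eq_iff h (mem_swap ha) (mem_swap hb)).symm
  mul_iff h ha hb hc := (B.mul_iff h (mem_swap ha) (mem_swap hb) (mem_swap hc)).symm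
  ext := by
    intro r l h hl
    obtain ⟨f, hf⟩ := B.ext h (by simpa using hl)
    refine ⟨f.symm, fun g => ?_⟩
    have := hf (f.symm g)
    simpa using this
  big := B.big
  zp ht n _ _ _ _ _ _ h ha hb := (B.zp ht n h (mem_swap ha) (mem_swap hb)).symm
  p1 ht n _ _ _ _ h ha := (B.p1 ht n h (mem_swap ha)).symm
  cj ht _ _ _ _ _ _ _ _ h hg ha hb := (B.cj ht h (mem_swap hg) (mem_swap ha) (mem_swap hb)).symm
  sp ht _ _ _ _ _ _ h ha hb h1 h2 := (B.sp ht h (mem_swap ha) (mem_swap hb) h2 h1).symm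

section

variable (B : BF G K k t)

theorem swap {l : List (G × K)} (h : B.E r l) : B.symm.E r (l.map Prod.swap) := by
  show B.E _ _
  simpa [List.map_map] using h

theorem unswap {l : List (G × K)} {a : G} {a' : K} (h : B.symm.E r ((a', a) :: l.map Prod.swap)) :
    B.E r ((a, a') :: l) := by
  have h1 : B.E _ _ := h
  simpa [List.map_map] using h1

theorem extB {l : List (G × K)} (h : B.E (r + 1) l) (l₀ : List (G × K)) (h₀ : l₀ ⊆ l)
    (hl : l₀.length ≤ 8) : ∃ f : G ≃ K, ∀ g, B.E r ((g, f g) :: l₀) :=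
  B.ext (B.mono h₀ h) (hl.trans B.big)

theorem fw {l : List (G × K)} (h : B.E (r + 1) l) (l₀ : List (G × K)) (h₀ : l₀ ⊆ l)
    (hl : l₀.length ≤ 8) (g : G) : ∃ g', B.E r ((g, g') :: l₀) := by
  obtain ⟨f, hf⟩ := B.extB h l₀ h₀ hl
  exact ⟨_, hf g⟩

theorem bw {l : List (G × K)} (h : B.E (r + 1) l) (l₀ : List (G × K)) (h₀ : l₀ ⊆ l)
    (hl : l₀.length ≤ 8) (g' : K) : ∃ g, B.E r ((g, g') :: l₀) := by
  obtain ⟨f, hf⟩ := B.extB h l₀ h₀ hl
  exact ⟨f.symm g', by simpa using hf (f.symm g')⟩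

theorem one {l : List (G × K)} (h : B.E r l) {a : G} {a' : K} (ha : (a, a') ∈ l) :
    a = 1 ↔ a' = 1 := by
  have := B.mul_iff h ha ha ha
  simpa using this

theorem pow0 (d : ℕ) : ∀ n < 2 ^ d, ∀ {l : List (G × K)} (_ : B.E (2 * d) l) {a b : G} {a' b' : K}
    (_ : (a, a') ∈ l) (_ : (b, b') ∈ l), a ^ n = b → a' ^ n = b' := by
  induction d with
  | zero =>
    intro n hn l h a b a' b' ha hb hab
    obtain rfl : n = 0 := by simpa using hn
    rw [pow_zero] at hab ⊢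
    exact ((B.one h hb).mp hab.symm).symm
  | succ d ih =>
    intro n hn l h a b a' b' ha hb hab
    obtain ⟨c', hc⟩ := B.fw (r := 2 * d + 1) h [(a, a'), (b, b')] (by simp [*]) (by simp)
      (a ^ (n / 2))
    obtain ⟨e', he⟩ := B.fw hc _ (List.Subset.refl _) (by simp) (a ^ (n / 2) * a ^ (n / 2))
    have h1 : a' ^ (n / 2) = c' := ih _ (by omega) he (a := a) (b := a ^ (n / 2)) (by simp)
      (by simp) rfl
    have h2 := (B.mul_iff he (a := a ^ (n / 2)) (a' := c') (b := a ^ (n / 2)) (b' := c')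
      (c' := e') (by simp) (by simp) (List.mem_cons_self ..)).mp rfl
    rcases Nat.mod_two_eq_zero_or_one n with hm | hm
    · have e : n = n / 2 + n / 2 := by omega
      rw [e, pow_add] at hab ⊢
      rw [h1, h2]
      exact (B.eq_iff he (List.mem_cons_self ..) (by simp)).mp hab
    · have e : n = n / 2 + n / 2 + 1 := by omega
      rw [e, pow_succ, pow_add] at hab ⊢
      rw [h1, h2]
      exact (B.mul_iff he (List.mem_cons_self ..) (b := a) (c := b) (by simp) (by simp)).mp hab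

theorem zpow0 [Finite G] [Finite K] (hc : Nat.card G = Nat.card K) {d : ℕ}
    (hd : Nat.card G < 2 ^ d) (n : ℤ) {l : List (G × K)} (h : B.E (2 * d) l) {a b : G} {a' b' : K}
    (ha : (a, a') ∈ l) (hb : (b, b') ∈ l) (hab : a ^ n = b) : a' ^ n = b' := by
  have h0 : (0 : ℤ) < Nat.card G := by exact_mod_cast Nat.card_pos
  have h1 := Int.emod_nonneg n h0.ne'
  have h2 := Int.emod_lt_of_pos n h0
  rw [← zpow_mod_natCard] at hab ⊢
  rw [← hc]
  lift n % Nat.card G to ℕ using h1 with m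
  rw [zpow_natCast] at hab ⊢
  exact B.pow0 d m (by omega) h ha hb hab

theorem conj0 {l : List (G × K)} (h : B.E 1 l) {g a b : G} {g' a' b' : K} (hg : (g, g') ∈ l)
    (ha : (a, a') ∈ l) (hb : (b, b') ∈ l) (hab : g * a * g⁻¹ = b) : g' * a' * g'⁻¹ = b' := by
  obtain ⟨c', hc⟩ := B.fw h [(g, g'), (a, a'), (b, b')] (by simp [*]) (by simp) (g * a)
  have h1 := (B.mul_iff hc (a := g) (a' := g') (b := a) (b' := a') (c := g * a) (c' := c')
    (by simp) (by simp) (by simp)).mp rfl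
  have h2 := (B.mul_iff hc (a := b) (a' := b') (b := g) (b' := g') (c := g * a) (c' := c')
    (by simp) (by simp) (by simp)).mp (by rw [← hab]; simp)
  rw [h1, ← h2]; simp

theorem pone0 [Finite G] [Finite K] (hc : Nat.card G = Nat.card K) {d : ℕ}
    (hd : Nat.card G < 2 ^ d) (n : ℕ) {l : List (G × K)} (h : B.E (2 * d + 1) l) {a : G} {a' : K}
    (ha : (a, a') ∈ l) (hab : a ^ n = 1) : a' ^ n = 1 := by
  obtain ⟨c', hc'⟩ := B.fw h [(a, a')] (by simp [*]) (by simp) 1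
  have h1 : c' = 1 := (B.one hc' (a := 1) (by simp)).mp rfl
  rw [← h1, ← zpow_natCast]
  exact B.zpow0 hc hd n hc' (a := a) (b := 1) (by simp) (by simp) (by rwa [zpow_natCast])

/-- The first tier. -/
def up1 [Finite G] [Finite K] (hc : Nat.card G = Nat.card K) {d : ℕ} (hd : Nat.card G < 2 ^ d) :
    BF G K k 1 where
  E r := B.E (2 * d + 1 + r)
  mono := B.mono
  le h := B.le (by omega)
  eq_iff := B.eq_iff
  mul_iff := B.mul_iff
  ext := B.ext
  big := B.big
  zp _ n _ _ _ _ _ _ h ha hb := ⟨B.zpow0 hc hd n (B.le (by omega) h) ha hb,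
    B.symm.zpow0 hc.symm (hc ▸ hd) n (B.swap (B.le (by omega) h)) (mem_swap ha) (mem_swap hb)⟩
  p1 _ n _ _ _ _ h ha := ⟨B.pone0 hc hd n (B.le (by omega) h) ha,
    B.symm.pone0 hc.symm (hc ▸ hd) n (B.swap (B.le (by omega) h)) (mem_swap ha)⟩
  cj _ _ _ _ _ _ _ _ _ h hg ha hb := ⟨B.conj0 (B.le (by omega) h) hg ha hb,
    B.symm.conj0 (B.swap (B.le (by omega) h)) (mem_swap hg) (mem_swap ha) (mem_swap hb)⟩
  sp h := absurd h (by omega)

theorem wd_tr {A : Type} [Group A] (φ : A →* G) {S : Set A} {Q : A → K → Prop}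
    {l : List (G × K)} (hl : l.length ≤ 4) (Q1 : Q 1 1)
    (Qm : ∀ u u' v v', Q u u' → Q v v' → Q (u * v) (u' * v'))
    (Qs : ∀ s ∈ S, ∀ (n : ℤ) w', B.E 2 ((φ (s ^ n), w') :: l) → Q (s ^ n) w') {i : ℕ} {x : A}
    (hx : Wd S i x) : ∀ z', B.E (2 * i + 2) ((φ x, z') :: l) → Q x z' := by
  induction hx with
  | one i => exact fun z' h => (B.one h (List.mem_cons_self ..)).mp (map_one φ) ▸ Q1
  | @mul i u s n _ hs ih =>
    intro z' h
    obtain ⟨u', hu⟩ := B.fw (r := 2 * i + 3) h _ (List.Subset.refl _) (by simp; omega) (φ u)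
    obtain ⟨w', hw⟩ := B.fw hu _ (List.Subset.refl _) (by simp; omega) (φ (s ^ n))
    rw [← (B.mul_iff hw (a := φ u) (a' := u') (b := φ (s ^ n)) (b' := w') (c := φ (u * s ^ n))
      (c' := z') (by simp) (by simp) (by simp)).mp (map_mul φ _ _).symm]
    have e : ∀ c, l ⊆ c :: l := fun c => List.subset_cons_self c l
    exact Qm _ _ _ _ (ih u' (B.mono (List.cons_subset_cons _ (e _)) (B.le (by omega) hu)))
      (Qs s hs n w' (B.mono (List.cons_subset_cons _ (List.Subset.trans (e _) (List.subset_cons_self ..)))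
        (B.le (by omega) hw)))

end

variable (B : BF G K k (t + 1))

theorem zpow (n : ℤ) {l : List (G × K)} (h : B.E r l) {a b : G} {a' b' : K}
    (ha : (a, a') ∈ l) (hb : (b, b') ∈ l) (hab : a ^ n = b) : a' ^ n = b' :=
  (B.zp (by omega) n h ha hb).mp hab

theorem inv {l : List (G × K)} (h : B.E r l) {a b : G} {a' b' : K}
    (ha : (a, a') ∈ l) (hb : (b, b') ∈ l) (hab : a⁻¹ = b) : a'⁻¹ = b' := by
  rw [← zpow_neg_one] at hab ⊢
  exact B.zpow _ h ha hb hab

theorem pow_one_iff (n : ℕ) {l : List (G × K)} (h : B.E r l) {a : G} {a' : K}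
    (ha : (a, a') ∈ l) : a ^ n = 1 ↔ a' ^ n = 1 := B.p1 (by omega) n h ha

theorem pow_one' (n : ℕ) {l : List (G × K)} (h : B.E r l) {a : G} {a' : K}
    (ha : (a, a') ∈ l) (hab : a ^ n = 1) : a' ^ n = 1 := (B.pow_one_iff n h ha).mp hab

theorem conj {l : List (G × K)} (h : B.E r l) {g a b : G} {g' a' b' : K} (hg : (g, g') ∈ l)
    (ha : (a, a') ∈ l) (hb : (b, b') ∈ l) (hab : g * a * g⁻¹ = b) : g' * a' * g'⁻¹ = b' :=
  (B.cj (by omega) h hg ha hb).mp hab

theorem sp0 [Finite G] {d : ℕ} (hd : Nat.card G < 2 ^ d) {l : List (G × K)}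
    (h : B.E (2 * d + 2) l) {a b : G} {a' b' : K} (ha : (a, a') ∈ l) (hb : (b, b') ∈ l)
    (h1 : Ab (Cj a)) (h2 : b ∈ Subgroup.closure (Cj a)) : b' ∈ Subgroup.closure (Cj a') := by
  refine B.wd_tr (MonoidHom.id G) (Q := fun _ z' => z' ∈ Subgroup.closure (Cj a'))
    (l := [(a, a')]) (by simp) (one_mem _) (fun _ _ _ _ => mul_mem) ?_ (wd_of_mem h1 hd h2) b'
    (B.mono (by simp [*]) h)
  rintro _ ⟨g, rfl⟩ n w' hw
  obtain ⟨g', hg⟩ := B.fw hw _ (List.Subset.refl _) (by simp) g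
  obtain ⟨s', hs⟩ := B.fw hg _ (List.Subset.refl _) (by simp) (g * a * g⁻¹)
  rw [← B.zpow n hs (List.mem_cons_self ..) (b' := w') (by simp) rfl]
  exact zpow_mem (Subgroup.subset_closure (k := Cj a') ⟨g', B.conj hs (by simp) (by simp)
    (List.mem_cons_self ..) rfl⟩) n

theorem pr0 [Finite G] [Finite K] {d : ℕ} (hd : Nat.card (G × K) < 2 ^ d) {l : List (G × K)}
    (h : B.E (2 * d + 2) l) {a y x : G × K} {z' : K} (ha : a ∈ l) (hy : y ∈ l)
    (hz : (x.1, z') ∈ l) (h1 : Ab (Pj a y)) (h2 : x ∈ Subgroup.closure (Pj a y)) : x.2 = z' := by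
  refine B.wd_tr (MonoidHom.fst G K) (Q := fun x z' => x.2 = z') (l := [a, y]) (by simp) rfl
    (by rintro _ _ _ _ rfl rfl; rfl) ?_ (wd_of_mem h1 hd h2) z' (B.mono (by simp [*]) h)
  rintro _ ⟨m, rfl⟩ n w' hw
  obtain ⟨g', hg⟩ := B.fw hw _ (List.Subset.refl _) (by simp) (a.1 ^ m)
  obtain ⟨s', hs⟩ := B.fw hg _ (List.Subset.refl _) (by simp) (a.1 ^ m * y.1 * (a.1 ^ m)⁻¹)
  have e1 := B.zpow m hs (a := a.1) (a' := a.2) (b' := g') (by simp) (by simp) rfl
  have e2 := B.conj hs (g := a.1 ^ m) (g' := g') (a := y.1) (a' := y.2) (by simp) (by simp)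
    (List.mem_cons_self ..) rfl
  rw [← B.zpow n hs (List.mem_cons_self ..) (b' := w') (by simp) rfl, ← e2, ← e1]
  rfl

/-- The second tier. -/
def up2 [Finite G] [Finite K] (hc : Nat.card G = Nat.card K) {d : ℕ} (hd : Nat.card G < 2 ^ d) :
    BF G K k 2 where
  E r := B.E (4 * d + 2 + r)
  mono := B.mono
  le h := B.le (by omega)
  eq_iff := B.eq_iff
  mul_iff := B.mul_iff
  ext := B.ext
  big := B.big
  zp _ n _ := B.zp (by omega) n
  p1 _ n _ := B.p1 (by omega) n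
  cj _ _ := B.cj (by omega)
  sp _ _ _ _ _ _ _ h ha hb h1 h2 := ⟨B.sp0 hd (B.le (by omega) h) ha hb h1,
    B.symm.sp0 (hc ▸ hd) (B.swap (B.le (by omega) h)) (mem_swap ha) (mem_swap hb) h2⟩

end BF

end Pool.Agent.MP_88b4a2_lc.Rd
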