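import Pool.Agent.Mg.F88b4a2.Ga2b59b

/-! The abstract system with a bound on the number of remaining rounds. -/

namespace Pool.Agent.MP_88b4a2_lc.Rd

open Equiv Equiv.Perm
open Pool.Agent.MP_88b4a2_lc.Sys (Iso Lat)

/-- Positions are lists of moves `ω : Ω`; `W` are the positions good for Duplicator;
`Pt ω j j'` says that the move `ω` marks the pair of points `j`, `j'`. -/
structure Sys (J J' Ω : Type) (κ : ℕ) where
  W : ℕ → List Ω → Prop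
  Pt : Ω → J → J' → Prop
  m : J → ℕ
  m' : J' → ℕ
  Λ : ℕ → AddSubgroup (J → ℤ)
  Λ' : ℕ → AddSubgroup (J' → ℤ)
  m_pos : ∀ j, 0 < m j
  Λ_mono : Monotone Λ
  mem_Λ : ∀ i v, (∀ j, (m j : ℤ) ∣ v j) → v ∈ Λ i
  mem_Λ' : ∀ i v, (∀ j, (m' j : ℤ) ∣ v j) → v ∈ Λ' i
  mono : ∀ {r} l l', l ⊆ l' → W r l' → W r l
  le : ∀ {r r' l}, r ≤ r' → W r' l → W r l
  pt_m : ∀ ω j j', W 0 [ω] → Pt ω j j' → m j = m' j'
  pt_eq : ∀ ω ω' j j' i i', W 0 [ω, ω'] → Pt ω j j' → Pt ω' i i' → (j = i ↔ j' = i')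
  extPt : ∀ {r} l, W (r + 1) l → l.length ≤ κ → ∃ b : J ≃ J', ∀ j, ∃ ω, Pt ω j (b j) ∧ W r (ω :: l)
  extSet : ∀ {r} l, W (r + 1) l → l.length ≤ κ → ∀ S : Set J, ∃ (S' : Set J') (ω : Ω), W r (ω :: l) ∧
    ∀ ω' j j', W 0 [ω, ω'] → Pt ω' j j' → (j ∈ S ↔ j' ∈ S')
  extVec : ∀ {r} l, W (r + 1) l → l.length ≤ κ → ∀ a : J → ℤ, ∃ (a' : J' → ℤ) (ω : Ω), W r (ω :: l) ∧
    (∀ i, a ∈ Λ i → a' ∈ Λ' i) ∧ ∀ ω' j j', W 0 [ω, ω'] → Pt ω' j j' → a j ≡ a' j' [ZMOD m j]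
  extVec' : ∀ {r} l, W (r + 1) l → l.length ≤ κ → ∀ a' : J' → ℤ, ∃ (a : J → ℤ) (ω : Ω), W r (ω :: l) ∧
    (∀ i, a' ∈ Λ' i → a ∈ Λ i) ∧ ∀ ω' j j', W 0 [ω, ω'] → Pt ω' j j' → a j ≡ a' j' [ZMOD m j]

namespace Sys

variable {J J' Ω : Type} {κ : ℕ} (S : Sys J J' Ω κ)

def Compat (l : List Ω) (σ : J ≃ J') : Prop := ∀ j, ∃ ω, S.Pt ω j (σ j) ∧ S.W 0 (ω :: l)

/-- The move `ω` forces the relation `P` on marked points. -/
def Forces (ω : Ω) (P : J → J' → Prop) : Prop :=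
  ∀ ω' j j', S.W 0 [ω, ω'] → S.Pt ω' j j' → P j j'

variable {S}

theorem Compat.forces {l : List Ω} {σ : J ≃ J'} (h : S.Compat l σ) {ω : Ω} (hω : ω ∈ l)
    {P : J → J' → Prop} (hP : S.Forces ω P) (j : J) : P j (σ j) := by
  obtain ⟨ω', h1, h2⟩ := h j
  exact hP ω' _ _ (S.mono _ _ (by simp [hω]) h2) h1

theorem forces_pt {ω : Ω} {i : J} {i' : J'} (h : S.Pt ω i i') :
    S.Forces ω (fun j j' => i = j ↔ i' = j') := fun _ _ _ h1 h2 => S.pt_eq _ _ _ _ _ _ h1 h h2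

theorem Compat.pt {l : List Ω} {σ : J ≃ J'} (h : S.Compat l σ) {ω : Ω} (hω : ω ∈ l)
    {i : J} {i' : J'} (hp : S.Pt ω i i') : σ i = i' :=
  ((h.forces hω (forces_pt hp) i).mp rfl).symm

theorem Compat.m_eq {l : List Ω} {σ : J ≃ J'} (h : S.Compat l σ) (j : J) :
    S.m j = S.m' (σ j) := by
  obtain ⟨ω', h1, h2⟩ := h j
  exact S.pt_m ω' _ _ (S.mono _ _ (by simp) h2) h1

theorem Compat.mono {l l' : List Ω} {σ : J ≃ J'} (h : S.Compat l' σ) (hl : l ⊆ l') :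
    S.Compat l σ := fun j => by
  obtain ⟨ω', h1, h2⟩ := h j
  exact ⟨ω', h1, S.mono _ _ (List.cons_subset_cons _ hl) h2⟩

theorem pebble_sets (cs : List (Set J)) (l : List Ω) {r : ℕ} (hl : S.W (r + cs.length) l)
    (hlen : l.length + cs.length ≤ κ) : ∃ l₀ : List Ω, l₀.length = cs.length ∧ S.W r (l₀ ++ l) ∧
      ∀ A ∈ cs, ∃ ω ∈ l₀, ∃ A' : Set J', S.Forces ω (fun j j' => j ∈ A ↔ j' ∈ A') := by
  induction cs generalizing r with
  | nil => exact ⟨[], rfl, hl, by simp⟩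
  | cons A cs ih =>
    simp only [List.length_cons] at hlen hl
    obtain ⟨l₀, h1, h2, h3⟩ := ih (r := r + 1) (S.le (by omega) hl) (by omega)
    obtain ⟨A', ω, h4, h5⟩ := S.extSet _ h2 (by simp; omega) A
    refine ⟨ω :: l₀, by simp [h1], h4, ?_⟩
    intro B hB
    rcases List.mem_cons.mp hB with rfl | hB
    · exact ⟨ω, by simp, A', h5⟩
    · obtain ⟨ω', h6, h7⟩ := h3 B hB
      exact ⟨ω', by simp [h6], h7⟩

theorem stab {α : Type} [Finite α] (T : ℕ → Set α) (h : ∀ i, T (i + 1) ⊆ T i) :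
    ∃ i ≤ Nat.card α, T i ⊆ T (i + 1) := by
  by_contra! hc
  have key : ∀ i ≤ Nat.card α + 1, (T i).ncard + i ≤ Nat.card α := fun i hi => by
    induction i with
    | zero => exact Set.ncard_le_card _
    | succ i ih =>
      have := Set.ncard_lt_ncard (s := T (i + 1)) ⟨h i, hc i (by omega)⟩
      have := ih (by omega)
      omega
  have := key _ le_rfl
  omega

variable (S) in
/-- Positions of length at most `c` containing `ω₀` admit a compatible isomorphism. -/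
def Good (L : ℕ → AddSubgroup (J → ℤ)) (L' : ℕ → AddSubgroup (J' → ℤ)) (ω₀ : Ω) (c r : ℕ) :
    Prop :=
  ∀ l, S.W r l → ω₀ ∈ l → l.length ≤ c → ∃ σ, Iso L L' σ ∧ S.Compat l σ

theorem lift [Finite J] {q r : ℕ} {L : ℕ → AddSubgroup (J → ℤ)} {L' : ℕ → AddSubgroup (J' → ℤ)} {ω₀ : Ω}
    (M : J → ℕ × ℕ) (hM : Bd q M) (hT : Tame (AutL L) M) (hκ : 4 * q + 7 ≤ κ)
    (h : S.Good L L' ω₀ (2 * q + 3) r) :
    S.Good L L' ω₀ (2 * q + 6) (r + Nat.card (J × J) + 2 + 2 * q) := by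
  intro l hl h0 hlen
  obtain ⟨l₀, h1, h2, h3⟩ := pebble_sets (S := S)
    ((List.range q).map (fun a => {x | (M x).1 = a}) ++
      (List.range q).map (fun a => {x | (M x).2 = a})) l (r := r + Nat.card (J × J) + 2)
      (S.le (by simp; omega) hl) (by simp; omega)
  simp only [List.length_append, List.length_map, List.length_range] at h1
  have hcol : ∀ (σ τ : J ≃ J'), S.Compat l₀ σ → S.Compat l₀ τ → ∀ z, M (τ.symm (σ z)) = M z := by
    intro σ τ hσ hτ z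
    have gen : ∀ A : Set J, (∃ ω ∈ l₀, ∃ A' : Set J', S.Forces ω (fun j j' => j ∈ A ↔ j' ∈ A')) →
        z ∈ A → τ.symm (σ z) ∈ A := by
      rintro A ⟨ω, hω, A', hA⟩ hz
      rw [hτ.forces hω hA, Equiv.apply_symm_apply, ← hσ.forces hω hA]
      exact hz
    exact Prod.ext (gen {x | (M x).1 = (M z).1} (h3 _ (List.mem_append_left _
      (List.mem_map.mpr ⟨_, List.mem_range.mpr (hM z).1, rfl⟩))) rfl)
      (gen {x | (M x).2 = (M z).2} (h3 _ (List.mem_append_right _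
      (List.mem_map.mpr ⟨_, List.mem_range.mpr (hM z).2, rfl⟩))) rfl)
  obtain ⟨τ, hτ1, hτ2⟩ := h (ω₀ :: l₀) (S.mono _ _ (by simp [h0]) (S.le (by omega) h2)) (by simp)
    (by simp; omega)
  obtain ⟨i, hi, hst⟩ := stab (fun i => {x : J × J | ∃ ω, S.Pt ω x.1 (τ x.2) ∧
    S.W (r + i) (ω :: (l₀ ++ l))}) fun i x ⟨ω, a, b⟩ => ⟨ω, a, S.le (by omega) b⟩
  obtain ⟨g, hg⟩ := hT (fun x y => ∃ ω, S.Pt ω x (τ y) ∧ S.W (r + i + 1) (ω :: (l₀ ++ l))) ⟨by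
    obtain ⟨b, hb⟩ := S.extPt (r := r + i + 1) _ (S.le (by omega) h2) (by simp; omega)
    exact ⟨b.trans τ.symm, fun x => by simpa using hb x⟩, by
    rintro u u' ⟨ω, h4, h5⟩
    obtain ⟨b, hb⟩ := S.extPt _ h5 (by simp; omega)
    refine ⟨b.trans τ.symm, fun x => ?_⟩
    obtain ⟨ω', h6, h7⟩ := hb x
    refine ⟨hst (a := (x, _)) ⟨ω', by simpa using h6, S.mono _ _ (by intro a; simp; tauto) h7⟩, ?_⟩
    obtain ⟨σ, hσ1, hσ2⟩ := h (ω' :: ω :: ω₀ :: l₀) (S.mono _ _ (by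
      intro a; simp only [List.mem_cons, List.mem_append]
      rintro (h | h | rfl | h) <;> simp [*]) (S.le (by omega) h7)) (by simp) (by simp; omega)
    refine ⟨⟨σ.trans τ.symm, fun i v => ?_⟩, fun z => hcol σ τ
      (hσ2.mono (by intro a; simp; tauto)) (hτ2.mono (by simp)) z, ?_, ?_⟩
    · have e1 := hσ1 i (fun j' => v (τ.symm j'))
      have e2 := hτ1 i (fun j' => v (τ.symm j'))
      simp only [Equiv.symm_apply_apply] at e2
      exact e1.trans e2.symm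
    · show τ.symm (σ u) = u'
      rw [hσ2.pt (by simp) h4, Equiv.symm_apply_apply]
    · show τ.symm (σ x) = τ.symm (b x)
      rw [hσ2.pt (by simp) h6]⟩
  refine ⟨g.1.trans τ, fun i v => (g.2 i (fun j => v (τ j))).trans (hτ1 i v), fun j => ?_⟩
  obtain ⟨ω, h4, h5⟩ := hg j
  exact ⟨ω, h4, S.mono _ _ (by intro a; simp; tauto) (S.le (by omega) h5)⟩

theorem extDiv {r : ℕ} (l : List Ω) (hl : S.W (r + 1) l) (hlen : l.length ≤ κ) (s : J → ℕ)
    (hs : ∀ j, s j ∣ S.m j) :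
    ∃ (s' : J' → ℕ) (ω : Ω), S.W r (ω :: l) ∧ S.Forces ω (fun j j' => s j = s' j') := by
  obtain ⟨a', ω, h1, -, h2⟩ := S.extVec l hl hlen (fun j => s j)
  refine ⟨fun j' => Int.gcd (a' j') (S.m' j'), ω, h1, fun ω' j j' h3 h4 => ?_⟩
  have h5 := h2 ω' j j' h3 h4
  have h6 := S.pt_m ω' j j' (S.mono _ _ (by simp) h3) h4
  obtain ⟨k, hk⟩ := h5.dvd
  have : a' j' = s j + S.m j * k := by linarith
  show s j = Int.gcd (a' j') (S.m' j')
  rw [← h6, this, Int.gcd_add_mul_left_left, Int.gcd_natCast_natCast, Nat.gcd_eq_left (hs j)]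

theorem step {c r : ℕ} (hκ : c + 2 ≤ κ) (s : J → ℕ) (hs : ∀ j, s j ∣ S.m j) (s' : J' → ℕ) (ω₀ : Ω)
    (h0 : S.Forces ω₀ (fun j j' => s j = s' j')) (w : J) (p : ℕ) (hp : p.Prime) (t : J → ℕ)
    (ht : ∀ j, t j ∣ S.m j) (htw : t w = s w * p) (hts : ∀ j, j ≠ w → t j = s j)
    (ih : ∀ (t' : J' → ℕ) (ω : Ω), S.Forces ω (fun j j' => t j = t' j') →
      S.Good (Lat S.Λ t) (Lat S.Λ' t') ω (c + 3) r) :
    S.Good (Lat S.Λ s) (Lat S.Λ' s') ω₀ c (r + 3) := by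
  classical
  intro l hl hl0 hlen
  obtain ⟨b, hb⟩ := S.extPt l hl (by omega)
  obtain ⟨ωw, hw1, hw2⟩ := hb w
  have hc : ∃ c : J → ℤ, ∀ i, (∃ c ∈ Lat S.Λ s i, ¬ (t w : ℤ) ∣ c w) →
      c ∈ Lat S.Λ s i ∧ ¬ (t w : ℤ) ∣ c w := by
    by_cases h : ∃ i, ∃ c ∈ Lat S.Λ s i, ¬ (t w : ℤ) ∣ c w
    · obtain ⟨c, h1, h2⟩ := Nat.find_spec h
      exact ⟨c, fun i hi => ⟨⟨S.Λ_mono (Nat.find_min' h hi) h1.1, h1.2⟩, h2⟩⟩
    · exact ⟨0, fun i hi => absurd ⟨i, hi⟩ h⟩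
  obtain ⟨c, hc⟩ := hc
  obtain ⟨c', ωc, hc1, hc2, hc3⟩ := S.extVec _ hw2 (by simp; omega) c
  obtain ⟨t', ωt, ht1, ht2⟩ := extDiv _ hc1 (by simp; omega) t ht
  obtain ⟨σ, hσ1, hσ2⟩ := ih t' ωt ht2 _ ht1 (by simp) (by simp; omega)
  refine ⟨σ, fun i v => ?_, hσ2.mono (by intro a; simp; tauto)⟩
  have e1 : σ w = b w := hσ2.pt (by simp) hw1
  have e2 : ∀ j, s j = s' (σ j) := hσ2.forces (by simp [hl0]) h0
  have e3 : ∀ j, t j = t' (σ j) := hσ2.forces (by simp) ht2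
  have e4 : ∀ j, c j ≡ c' (σ j) [ZMOD S.m j] := hσ2.forces (ω := ωc) (by simp) hc3
  have hdiv : (∀ j, (s j : ℤ) ∣ v (σ j)) ↔ ∀ j', (s' j' : ℤ) ∣ v j' :=
    ⟨fun h j' => by simpa [e2] using h (σ.symm j'), fun h j => by rw [e2]; exact h _⟩
  have hkey : ∀ u : J' → ℤ, (∀ j, (s j : ℤ) ∣ u (σ j)) → (t w : ℤ) ∣ u (σ w) →
      ((fun j => u (σ j)) ∈ S.Λ i ↔ u ∈ S.Λ' i) := by
    intro u h1 h2
    have h3 : ∀ j, (t j : ℤ) ∣ u (σ j) := fun j => by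
      by_cases hj : j = w
      · rw [hj]; exact h2
      · rw [hts j hj]; exact h1 j
    have h4 : ∀ j', (t' j' : ℤ) ∣ u j' := fun j' => by simpa [e3] using h3 (σ.symm j')
    exact ⟨fun h => ((hσ1 i u).mp ⟨h, h3⟩).1, fun h => ((hσ1 i u).mpr ⟨h, h4⟩).1⟩
  have main : (∀ j, (s j : ℤ) ∣ v (σ j)) → ((fun j => v (σ j)) ∈ S.Λ i ↔ v ∈ S.Λ' i) := by
    intro hv
    by_cases hP : ∃ c ∈ Lat S.Λ s i, ¬ (t w : ℤ) ∣ c w
    · obtain ⟨⟨f1, f2⟩, f3⟩ := hc i hP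
      obtain ⟨γ, hγ⟩ := f2 w
      obtain ⟨β, hβ⟩ := hv w
      have f4 : ¬ (p : ℤ) ∣ γ := fun h => f3 (by
        rw [hγ, htw]; push_cast; exact mul_dvd_mul_left _ h)
      obtain ⟨x, y, hxy⟩ := (Nat.prime_iff_prime_int.mp hp).coprime_iff_not_dvd.mpr f4
      have f5 : (fun j => c' (σ j)) ∈ S.Λ i := by
        have := (S.Λ i).add_mem f1 (S.mem_Λ i (fun j => c' (σ j) - c j) (fun j => (e4 j).dvd))
        convert this using 1
        funext j; simp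
      have f6 := hkey (v - (β * y) • c') (fun j => by
        refine dvd_sub (hv j) (Dvd.dvd.mul_left ?_ _)
        have := (Int.natCast_dvd_natCast.mpr (hs j)).trans (e4 j).dvd
        simpa using dvd_add this (f2 j)) (by
        have := (Int.natCast_dvd_natCast.mpr (ht w)).trans (e4 w).dvd
        have e5 : (v - (β * y) • c') (σ w) = t w * (β * x) - β * y * (c' (σ w) - c w) := by
          simp only [Pi.sub_apply, Pi.smul_apply, smul_eq_mul]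
          rw [hβ, hγ, htw]; push_cast
          linear_combination (-(s w : ℤ) * β) * hxy
        rw [e5]
        exact dvd_sub (dvd_mul_right _ _) (Dvd.dvd.mul_left this _))
      have f7 := (S.Λ' i).zsmul_mem (hc2 i f1) (β * y)
      have f8 := (S.Λ i).zsmul_mem f5 (β * y)
      refine ⟨fun h => ?_, fun h => ?_⟩
      · simpa using (S.Λ' i).add_mem (f6.mp ((S.Λ i).sub_mem h f8)) f7
      · have := (S.Λ i).add_mem (f6.mpr ((S.Λ' i).sub_mem h f7)) f8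
        convert this using 1
        funext j; simp
    · push Not at hP
      refine ⟨fun h => (hkey v hv (hP _ ⟨h, hv⟩)).mp h, fun h => (hkey v hv ?_).mpr h⟩
      obtain ⟨a, ωa, ha1, ha2, ha3⟩ := S.extVec' _ hw2 (by simp; omega) v
      obtain ⟨b', hb'⟩ := S.extPt _ ha1 (by simp; omega)
      have hb'' : S.Compat _ b' := fun j => (hb' j).imp fun _ h => ⟨h.1, S.le r.zero_le h.2⟩
      have f1 := hP a ⟨ha2 i h, fun j => by
        have g1 : a j ≡ v (b' j) [ZMOD S.m j] := hb''.forces (ω := ωa) (by simp) ha3 j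
        have g2 : s j = s' (b' j) := hb''.forces (by simp [hl0]) h0 j
        have g3 := (Int.natCast_dvd_natCast.mpr (hs j)).trans g1.dvd
        have g4 : (s j : ℤ) ∣ v (b' j) := by rw [g2]; exact hdiv.mp hv _
        simpa using dvd_sub g4 g3⟩
      have f2 := ha3 ωw _ _ (S.mono _ _ (by simp) (S.le (Nat.zero_le _) ha1)) hw1
      have f3 := (Int.natCast_dvd_natCast.mpr (ht w)).trans f2.dvd
      rw [e1]
      simpa using dvd_add f3 f1
  exact ⟨fun h => ⟨(main h.2).mp h.1, hdiv.mp h.2⟩,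
    fun h => ⟨(main (hdiv.mpr h.2)).mpr h.1, hdiv.mpr h.2⟩⟩

theorem good_all [Fintype J] {q : ℕ} (hq : ∀ n, IH q n) (hκ : 4 * q + 7 ≤ κ) (n : ℕ) :
    ∀ (s : J → ℕ), (∀ j, s j ∣ S.m j) → ∏ j, S.m j ≤ 2 ^ n * ∏ j, s j →
      ∀ (s' : J' → ℕ) (ω₀ : Ω), S.Forces ω₀ (fun j j' => s j = s' j') →
      S.Good (Lat S.Λ s) (Lat S.Λ' s') ω₀ (2 * q + 6)
        (n * (Nat.card (J × J) + 5 + 2 * q) + 1) := by
  classical
  induction n using Nat.strong_induction_on with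
  | _ n ih =>
  intro s hs hn s' ω₀ h0
  by_cases hall : ∀ j, s j = S.m j
  · intro l hl hl0 hlen
    obtain ⟨b, hb⟩ := S.extPt l hl (by omega)
    have hb' : S.Compat l b := fun j => (hb j).imp fun _ h => ⟨h.1, S.le (Nat.zero_le _) h.2⟩
    have e2 : ∀ j, s j = s' (b j) := hb'.forces hl0 h0
    refine ⟨b, fun i v => ⟨fun h => ?_, fun h => ?_⟩, hb'⟩
    · have h1 : ∀ j', (s' j' : ℤ) ∣ v j' := fun j' => by simpa [e2] using h.2 (b.symm j')
      refine ⟨S.mem_Λ' i v fun j' => ?_, h1⟩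
      obtain ⟨j, rfl⟩ := b.surjective j'
      rw [← hb'.m_eq, ← hall]; exact h.2 j
    · have h1 : ∀ j, (s j : ℤ) ∣ v (b j) := fun j => by rw [e2]; exact h.2 _
      exact ⟨S.mem_Λ i _ fun j => by rw [← hall]; exact h1 j, h1⟩
  · push Not at hall
    obtain ⟨w, hw⟩ := hall
    obtain ⟨k, hk⟩ := hs w
    have hk1 : k ≠ 1 := fun h => hw (by rw [hk, h, mul_one])
    have hp := Nat.minFac_prime hk1
    have hm := S.m_pos w
    have hsw : 0 < s w := Nat.pos_of_ne_zero fun h => by rw [hk, h] at hm; simp at hm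
    have ht : ∀ j, Function.update s w (s w * k.minFac) j ∣ S.m j := fun j => by
      by_cases hj : j = w
      · rw [hj, Function.update_self, hk]; exact mul_dvd_mul_left _ (Nat.minFac_dvd k)
      · rw [Function.update_of_ne hj]; exact hs j
    obtain ⟨M, hM, hT⟩ := hq _ J (AutL (Lat S.Λ s)) (Nat.lt_succ_self _) (pstar_autL _)
    have e1 : ∏ j, Function.update s w (s w * k.minFac) j = k.minFac * ∏ j, s j := by
      rw [Finset.prod_update_of_mem (Finset.mem_univ w),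
        Finset.prod_eq_mul_prod_sdiff_singleton_of_mem (Finset.mem_univ w) s]
      ring
    have e2 : k.minFac * ∏ j, s j ≤ ∏ j, S.m j :=
      e1 ▸ Finset.prod_le_prod' fun j _ => Nat.le_of_dvd (S.m_pos j) (ht j)
    have e3 : 0 < ∏ j, s j := Finset.prod_pos fun j _ => Nat.pos_of_dvd_of_pos (hs j) (S.m_pos j)
    have e4 := Nat.mul_le_mul_right (∏ j, s j) hp.two_le
    obtain _ | n := n
    · omega
    intro l hl
    refine lift M hM hT hκ (step (by omega) s hs s' ω₀ h0 w _ hp _ ht (Function.update_self ..)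
      (fun j hj => Function.update_of_ne hj ..) (ih n n.lt_succ_self _ ht ?_)) l
      (S.le (by rw [add_mul n 1]; omega) hl)
    rw [e1]
    refine hn.trans ?_
    rw [pow_succ, mul_assoc]
    exact Nat.mul_le_mul_left _ e4

end Sys

theorem sysThm {q : ℕ} (hq : ∀ n, IH q n) {J J' Ω : Type} [Fintype J] (S : Sys J J' Ω (4 * q + 7))
    {n : ℕ} (hn : ∏ j, S.m j ≤ 2 ^ n) (h : S.W (n * (Nat.card (J × J) + 5 + 2 * q) + 2) []) :
    ∃ σ : J ≃ J', (∀ j, ∃ ω, S.Pt ω j (σ j) ∧ S.W 0 [ω]) ∧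
      ∀ i (v : J' → ℤ), (fun j => v (σ j)) ∈ S.Λ i ↔ v ∈ S.Λ' i := by
  obtain ⟨s', ω₀, h1, h2⟩ := Sys.extDiv [] h (by simp) (fun _ => 1) (fun _ => one_dvd _)
  obtain ⟨σ, h3, h4⟩ := Sys.good_all hq le_rfl n (fun _ => 1) (fun _ => one_dvd _)
    (by simpa using hn) s' ω₀ h2 _ h1 (by simp) (by simp)
  have e2 : ∀ j, 1 = s' (σ j) := h4.forces (by simp) h2
  refine ⟨σ, h4.mono (List.nil_subset _), fun i v => ⟨fun hv => ((h3 i v).mp ⟨hv, by simp⟩).1,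
    fun hv => ((h3 i v).mpr ⟨hv, fun j' => ?_⟩).1⟩⟩
  obtain ⟨j, rfl⟩ := σ.surjective j'
  simp [← e2]

end Pool.Agent.MP_88b4a2_lc.Rd
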