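import Pool.Agent.MP_88b4a2_lc.Rd.A
import Pool.Agent.MP_88b4a2_lc.Rd.B

/-! The group layer with a bound on the number of rounds. -/

namespace Pool.Agent.MP_88b4a2_lc.Rd

open GrL (Md Ctx ctx_semidirect exists_md DD Lam lam_mono mem_lam img_transfer card_fibre fibre_π
  mem_swap)

theorem ctx_tr {G K : Type} [Group G] [Group K] {k t r ν μ : ℕ} (B : BF G K k (t + 1))
    (h0 : B.E (r + 4) []) (hc : Ctx G ν μ) : Ctx K ν μ := by
  obtain ⟨f, hf⟩ := B.extB h0 [] (by simp) (by simp)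
  refine ⟨fun x' y' hx hy => ?_, fun x' y' => ?_, ?_, ?_, hc.cop⟩
  · obtain ⟨x, h1⟩ := B.bw h0 [] (by simp) (by simp) x'
    obtain ⟨y, h2⟩ := B.bw h1 [(x, x')] (by simp) (by simp) y'
    have hx1 := (B.pow_one_iff ν h2 (a := x) (a' := x') (by simp)).mpr hx
    have hy1 := (B.pow_one_iff ν h2 (a := y) (a' := y') (by simp)).mpr hy
    have h3 := B.conj h2 (g := x) (g' := x') (a := y) (a' := y') (b := y) (b' := y')
      (by simp) (by simp) (by simp) (by rw [hc.comm x y hx1 hy1]; simp)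
    rw [← mul_inv_eq_iff_eq_mul]; exact h3
  · obtain ⟨x, h1⟩ := B.bw h0 [] (by simp) (by simp) x'
    obtain ⟨y, h2⟩ := B.bw h1 [(x, x')] (by simp) (by simp) y'
    obtain ⟨c', h3⟩ := B.fw h2 [(x, x'), (y, y')] (by simp) (by simp) (x * y * x⁻¹)
    obtain ⟨d', h4⟩ := B.fw h3 [(x, x'), (y, y'), (x * y * x⁻¹, c')] (by simp) (by simp)
      (x * y * x⁻¹ * y⁻¹)
    have h5 := B.conj h4 (g := x) (g' := x') (a := y) (a' := y') (b := x * y * x⁻¹) (b' := c')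
      (by simp) (by simp) (by simp) rfl
    have h6 := (B.mul_iff h4 (a := x * y * x⁻¹ * y⁻¹) (a' := d') (b := y) (b' := y')
      (c := x * y * x⁻¹) (c' := c') (by simp) (by simp) (by simp)).mp (by simp)
    have h7 := B.pow_one' ν h4 (a := x * y * x⁻¹ * y⁻¹) (a' := d') (by simp) (hc.cmt x y)
    rw [h5, ← h6]; simpa using h7
  · rw [← hc.cardV]
    symm
    rw [hc.cardV]
    conv_lhs => rw [← hc.cardV]
    exact Nat.card_congr (f.subtypeEquiv fun g => B.pow_one_iff ν (hf g) (by simp))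
  · rw [← hc.cardG]; exact (Nat.card_congr f).symm

section

variable {G V R Q J : Type} [Group G] [AddCommGroup V] [CommRing R] [Module R V]
  [CommGroup Q] [Fintype J] {ν μ : ℕ}
  {K V' R' Q' J' : Type} [Group K] [AddCommGroup V'] [CommRing R'] [Module R' V']
  [CommGroup Q'] [Fintype J'] {k r : ℕ}
  (M : Md G V R Q J ν μ) (M' : Md K V' R' Q' J' ν μ) (B : BF G K k 2) {l : List (G × K)}

theorem vext (h : B.E (r + 1) l) (hl : l.length ≤ k) :
    ∃ f : V ≃ V', ∀ v, B.E r ((M.ι v, M'.ι (f v)) :: l) := by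
  obtain ⟨f, hf⟩ := B.ext h hl
  have h1 : ∀ g, g ∈ Set.range M.ι ↔ f g ∈ Set.range M'.ι := fun g => by
    rw [Set.mem_range, Set.mem_range, ← M.mem_iff, ← M'.mem_iff]
    exact B.pow_one_iff ν (hf g) (by simp)
  refine ⟨(Equiv.ofInjective _ M.ι_inj).trans ((f.subtypeEquiv h1).trans
    (Equiv.ofInjective _ M'.ι_inj).symm), fun v => ?_⟩
  have := hf (M.ι v)
  convert this using 3
  simp only [Equiv.trans_apply]
  rw [Equiv.apply_ofInjective_symm M'.ι_inj]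
  rfl

theorem vfw (h : B.E (r + 1) l) (l₀ : List (G × K)) (h₀ : l₀ ⊆ l) (hl : l₀.length ≤ 8) (v : V) :
    ∃ v', B.E r ((M.ι v, M'.ι v') :: l₀) := by
  obtain ⟨f, hf⟩ := vext M M' B (B.mono h₀ h) (hl.trans B.big)
  exact ⟨_, hf v⟩

theorem vbw (h : B.E (r + 1) l) (l₀ : List (G × K)) (h₀ : l₀ ⊆ l) (hl : l₀.length ≤ 8) (v' : V') :
    ∃ v, B.E r ((M.ι v, M'.ι v') :: l₀) := by
  obtain ⟨f, hf⟩ := vext M M' B (B.mono h₀ h) (hl.trans B.big)
  exact ⟨f.symm v', by simpa using hf (f.symm v')⟩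

theorem qext [Finite G] [Finite K] [Finite Q] [Finite Q'] (h : B.E (r + 1) l) (hl : l.length ≤ k) :
    ∃ c : Q ≃ Q', ∀ q, ∃ g g', M.π g = q ∧ M'.π g' = c q ∧ B.E r ((g, g') :: l) := by
  obtain ⟨f, hf⟩ := B.ext h hl
  obtain ⟨c, hc⟩ := hall_fibre M.π M'.π M.π_surj M'.π_surj f fun x => by
    rw [fibre_π, fibre_π]
  refine ⟨c, fun q => ?_⟩
  obtain ⟨x, h1, h2⟩ := hc q
  exact ⟨x, f x, h1, h2, hf x⟩

theorem t_zero (h : B.E r l) {v : V} {v' : V'} (hv : (M.ι v, M'.ι v') ∈ l) : v = 0 ↔ v' = 0 := by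
  rw [← M.ι_eq_one, ← M'.ι_eq_one]; exact B.one h hv

theorem t_add (h : B.E r l) {v w z : V} {v' w' z' : V'} (hv : (M.ι v, M'.ι v') ∈ l)
    (hw : (M.ι w, M'.ι w') ∈ l) (hz : (M.ι z, M'.ι z') ∈ l) : v + w = z ↔ v' + w' = z' := by
  rw [← M.ι_inj.eq_iff, ← M'.ι_inj.eq_iff, M.ι_add, M'.ι_add]
  exact B.mul_iff h hv hw hz

theorem t_neg (h : B.E r l) {v w : V} {v' w' : V'} (hv : (M.ι v, M'.ι v') ∈ l)
    (hw : (M.ι w, M'.ι w') ∈ l) (hvw : -v = w) : -v' = w' := by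
  apply M'.ι_inj
  rw [M'.ι_neg]
  exact B.inv h hv hw (by rw [← hvw, M.ι_neg])

theorem t_nsmul (n : ℕ) (h : B.E r l) {v : V} {v' : V'} (hv : (M.ι v, M'.ι v') ∈ l) :
    n • v = 0 ↔ n • v' = 0 := by
  rw [← M.ι_eq_one, ← M'.ι_eq_one, M.ι_nsmul, M'.ι_nsmul]
  exact B.pow_one_iff n h hv

theorem t_act (h : B.E r l) {g : G} {g' : K} {v w : V} {v' w' : V'} (hg : (g, g') ∈ l)
    (hv : (M.ι v, M'.ι v') ∈ l) (hw : (M.ι w, M'.ι w') ∈ l) (hvw : M.ρ (M.π g) • v = w) :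
    M'.ρ (M'.π g') • v' = w' := by
  apply M'.ι_inj
  rw [M'.conj]
  exact B.conj h hg hv hw (by rw [← hvw, M.conj])

theorem t_qpow (n : ℕ) (h : B.E r l) {g : G} {g' : K} (hg : (g, g') ∈ l) :
    M.π g ^ n = 1 ↔ M'.π g' ^ n = 1 := by
  rw [← map_pow, ← map_pow, M.π_eq_one, M'.π_eq_one, ← pow_mul, ← pow_mul]
  exact B.pow_one_iff _ h hg

theorem cj_mem {y : V} {x : G} (hx : x ∈ Subgroup.closure (Cj (M.ι y))) :
    ∃ c : R, M.ι (c • y) = x := by
  induction hx using Subgroup.closure_induction with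
  | mem x hx => obtain ⟨g, rfl⟩ := hx; exact ⟨_, M.conj g y⟩
  | one => exact ⟨0, by rw [zero_smul, M.ι_zero]⟩
  | mul a b _ _ ha hb =>
    obtain ⟨c, rfl⟩ := ha
    obtain ⟨d, rfl⟩ := hb
    exact ⟨c + d, by rw [add_smul, M.ι_add]⟩
  | inv a _ ha =>
    obtain ⟨c, rfl⟩ := ha
    exact ⟨-c, by rw [neg_smul, M.ι_neg]⟩

theorem mem_cj (y : V) (c : R) : M.ι (c • y) ∈ Subgroup.closure (Cj (M.ι y)) := by
  have hr : c ∈ AddSubgroup.closure (Set.range M.ρ) := M.gen ▸ AddSubgroup.mem_top c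
  induction hr using AddSubgroup.closure_induction with
  | mem x hx =>
    obtain ⟨q, rfl⟩ := hx
    obtain ⟨g, rfl⟩ := M.π_surj q
    exact Subgroup.subset_closure ⟨g, (M.conj g y).symm⟩
  | zero => rw [zero_smul, M.ι_zero]; exact one_mem _
  | add a b _ _ ha hb => rw [add_smul, M.ι_add]; exact mul_mem ha hb
  | neg a _ ha => rw [neg_smul, M.ι_neg]; exact inv_mem ha

theorem ab_cj (y : V) : Ab (Cj (M.ι y)) := fun a ha b hb => by
  obtain ⟨c, rfl⟩ := cj_mem M ha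
  obtain ⟨d, rfl⟩ := cj_mem M hb
  rw [commute_iff_eq, ← M.ι_add, ← M.ι_add, add_comm]

theorem t_span (h : B.E r l) {y z : V} {y' z' : V'} (hy : (M.ι y, M'.ι y') ∈ l)
    (hz : (M.ι z, M'.ι z') ∈ l) (hyz : ∃ r : R, r • y = z) : ∃ r' : R', r' • y' = z' := by
  obtain ⟨c, rfl⟩ := hyz
  obtain ⟨d, hd⟩ := cj_mem M' ((B.sp le_rfl h hy hz (ab_cj M y) (ab_cj M' y')).mp (mem_cj M y c))
  exact ⟨d, M'.ι_inj hd⟩

theorem t_simple (h : B.E (r + 1) l) {z : V} {z' : V'} (hz : (M.ι z, M'.ι z') ∈ l)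
    (hs : Md.Simple R z) : Md.Simple R' z' := by
  refine ⟨fun h0 => hs.1 ((t_zero M M' B h hz).mpr h0), fun w' hw hw0 => ?_⟩
  obtain ⟨w, h1⟩ := vbw M M' B h [(M.ι z, M'.ι z')] (by simp [*]) (by simp) w'
  have h2 := t_span M' M B.symm (B.swap h1) (y := z') (y' := z) (z := w') (z' := w)
    (by simp) (by simp) hw
  have h3 : w ≠ 0 := fun h0 => hw0 ((t_zero M M' B h1 (by simp)).mp h0)
  exact t_span M M' B h1 (by simp) (by simp) (hs.2 w h2 h3)

variable [Finite V] [Finite V']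

theorem t_isS (h : B.E (r + 2) l) {y z : V} {y' z' : V'} (hy : (M.ι y, M'.ι y') ∈ l)
    (hz : (M.ι z, M'.ι z') ∈ l) {j : J} {j' : J'} (h1 : M.IsS j y) (h1' : M'.IsS j' y')
    (h2 : M.IsS j z) : M'.IsS j' z' := by
  obtain ⟨i', hi⟩ := (M'.simple_iff _).mp
    (t_simple M M' B h hz ((M.simple_iff _).mpr ⟨j, h2⟩))
  obtain ⟨w', hw⟩ := vfw M M' B h [(M.ι y, M'.ι y'), (M.ι z, M'.ι z')]
    (by simp [*]) (by simp) (y + z)
  have h3 : y' + z' = w' := (t_add M M' B hw (v := y) (w := z) (z := y + z) (by simp) (by simp)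
    (by simp)).mp rfl
  have h4 : i' = j' := by
    rw [M'.same_iff h1' hi, h3]
    rcases (M.same_iff h1 h2).mp rfl with h5 | h5
    · exact Or.inl ((t_zero M M' B hw (by simp)).mp h5)
    · exact Or.inr (t_simple M M' B hw (by simp) h5)
  exact h4 ▸ hi

theorem t_pteq (h : B.E (r + 2) l) {y z : V} {y' z' : V'} (hy : (M.ι y, M'.ι y') ∈ l)
    (hz : (M.ι z, M'.ι z') ∈ l) {j i : J} {j' i' : J'} (h1 : M.IsS j y) (h1' : M'.IsS j' y')
    (h2 : M.IsS i z) (h2' : M'.IsS i' z') : j = i ↔ j' = i' := by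
  constructor
  · rintro rfl
    exact h2'.uniq (t_isS M M' B h hy hz h1 h1' h2)
  · rintro rfl
    exact h2.uniq (t_isS M' M B.symm (B.swap h) (mem_swap hy) (mem_swap hz) h1' h1 h2')

theorem t_supp (h : B.E (r + 3) l) {y n : V} {y' n' : V'} (hy : (M.ι y, M'.ι y') ∈ l)
    (hn : (M.ι n, M'.ι n') ∈ l) {j : J} {j' : J'} (h1 : M.IsS j y) (h1' : M'.IsS j' y')
    (h2 : M.e j • n ≠ 0) : M'.e j' • n' ≠ 0 := by
  obtain ⟨r, hr⟩ := (M.supp_iff j n).mp h2
  obtain ⟨w', hw⟩ := vfw M M' B h [(M.ι y, M'.ι y'), (M.ι n, M'.ι n')]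
    (by simp [*]) (by simp) (r • n)
  obtain ⟨r', hr'⟩ := t_span M M' B hw (y := n) (y' := n') (z := r • n) (z' := w')
    (by simp) (by simp) ⟨r, rfl⟩
  exact (M'.supp_iff j' n').mpr ⟨r', hr' ▸ t_isS M M' B hw (by simp) (by simp) h1 h1' hr⟩

theorem t_supp_iff (h : B.E (r + 3) l) {y n : V} {y' n' : V'} (hy : (M.ι y, M'.ι y') ∈ l)
    (hn : (M.ι n, M'.ι n') ∈ l) {j : J} {j' : J'} (h1 : M.IsS j y) (h1' : M'.IsS j' y') :
    M.e j • n = 0 ↔ M'.e j' • n' = 0 :=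
  not_iff_not.mp ⟨t_supp M M' B h hy hn h1 h1',
    t_supp M' M B.symm (B.swap h) (mem_swap hy) (mem_swap hn) h1' h1⟩

theorem t_eqj (h : B.E (r + 4) l) {y v w : V} {y' v' w' : V'} (hy : (M.ι y, M'.ι y') ∈ l)
    (hv : (M.ι v, M'.ι v') ∈ l) (hw : (M.ι w, M'.ι w') ∈ l) {j : J} {j' : J'}
    (h1 : M.IsS j y) (h1' : M'.IsS j' y') (h2 : M.e j • v = M.e j • w) :
    M'.e j' • v' = M'.e j' • w' := by
  obtain ⟨d', hd⟩ := vfw M M' B h [(M.ι y, M'.ι y'), (M.ι v, M'.ι v'), (M.ι w, M'.ι w')]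
    (by simp [*]) (by simp) (v - w)
  have h3 : d' + w' = v' := (t_add M M' B hd (v := v - w) (w := w) (z := v) (by simp) (by simp)
    (by simp)).mp (sub_add_cancel _ _)
  have h4 := (t_supp_iff M M' B hd (n := v - w) (n' := d') (by simp) (by simp) h1 h1').mp
    (by rw [smul_sub, h2, sub_self])
  rw [← h3, smul_add, h4, zero_add]

theorem t_at (h : B.E (r + 5) l) {y n0 n : V} {y' n0' n' : V'} {g : G} {g' : K}
    (hy : (M.ι y, M'.ι y') ∈ l) (h0 : (M.ι n0, M'.ι n0') ∈ l) (hn : (M.ι n, M'.ι n') ∈ l)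
    (hg : (g, g') ∈ l) {j : J} {j' : J'} (h1 : M.IsS j y) (h1' : M'.IsS j' y')
    (h2 : M.At n0 n j (M.π g)) : M'.At n0' n' j' (M'.π g') := by
  obtain ⟨w', hw⟩ := vfw M M' B h
    [(M.ι y, M'.ι y'), (M.ι n0, M'.ι n0'), (M.ι n, M'.ι n'), (g, g')]
    (by simp [*]) (by simp) (M.ρ (M.π g) • n0)
  have h3 := t_act M M' B hw (g := g) (g' := g') (v := n0) (v' := n0') (w' := w')
    (by simp) (by simp) (by simp) rfl
  have h4 := t_eqj M M' B hw (v := n) (v' := n') (w := M.ρ (M.π g) • n0) (w' := w')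
    (by simp) (by simp) (by simp) h1 h1' (by rw [h2, smul_comm])
  rw [Md.At, h4, ← h3, smul_comm]

omit [Finite V] [Finite V'] in
theorem t_χ (h : B.E (r + 1) l) {y : V} {y' : V'} {a b : G} {a' b' : K}
    (hy : (M.ι y, M'.ι y') ∈ l) (ha : (a, a') ∈ l) (hb : (b, b') ∈ l)
    {j : J} {j' : J'} (h1 : M.IsS j y) (h1' : M'.IsS j' y')
    (h2 : M.χ j (M.π a) = M.χ j (M.π b)) : M'.χ j' (M'.π a') = M'.χ j' (M'.π b') := by
  obtain ⟨w', hw⟩ := vfw M M' B h [(M.ι y, M'.ι y'), (a, a'), (b, b')]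
    (by simp [*]) (by simp) (M.ρ (M.π a) • y)
  rw [h1.χ_iff] at h2
  rw [h1'.χ_iff, t_act M M' B hw (g := a) (g' := a') (v := y) (v' := y') (w' := w')
    (by simp) (by simp) (by simp) rfl,
    t_act M M' B hw (g := b) (g' := b') (v := y) (v' := y') (w' := w')
    (by simp) (by simp) (by simp) h2.symm]

omit [Finite V] [Finite V'] in
theorem t_χpow (h : B.E (r + 2) l) {y : V} {y' : V'} {a b : G} {a' b' : K}
    (hy : (M.ι y, M'.ι y') ∈ l) (ha : (a, a') ∈ l) (hb : (b, b') ∈ l)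
    {j : J} {j' : J'} (h1 : M.IsS j y) (h1' : M'.IsS j' y') (n : ℤ)
    (h2 : M.χ j (M.π a) = M.χ j (M.π b) ^ n) :
    M'.χ j' (M'.π a') = M'.χ j' (M'.π b') ^ n := by
  obtain ⟨c', hc⟩ := B.fw h [(M.ι y, M'.ι y'), (a, a'), (b, b')]
    (by simp [*]) (by simp) (b ^ n)
  have h3 : b' ^ n = c' := B.zpow n hc (a := b) (b := b ^ n) (by simp) (by simp) rfl
  rw [← map_zpow, ← map_zpow] at h2 ⊢
  rw [h3]
  exact t_χ M M' B hc (by simp) (by simp) (by simp) h1 h1' h2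

theorem bw_isS (h : B.E (r + 2) l) (l₀ : List (G × K)) (h₀ : l₀ ⊆ l) (hl : l₀.length ≤ 8) (j' : J') :
    ∃ y y' j, M.IsS j y ∧ M'.IsS j' y' ∧ B.E (r + 1) ((M.ι y, M'.ι y') :: l₀) := by
  obtain ⟨y', hy'⟩ := M'.exists_isS j'
  obtain ⟨y, hy⟩ := vbw M M' B h l₀ h₀ hl y'
  obtain ⟨j, hj⟩ := (M.simple_iff y).mp (t_simple M' M B.symm (B.swap hy) (z := y') (z' := y)
    (by simp) ((M'.simple_iff _).mpr ⟨j', hy'⟩))
  exact ⟨y, y', j, hj, hy', hy⟩

theorem t_block (h : B.E (r + 4) l) {y v : V} {y' v' : V'} (hy : (M.ι y, M'.ι y') ∈ l)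
    (hv : (M.ι v, M'.ι v') ∈ l) {j : J} {j' : J'} (h1 : M.IsS j y) (h1' : M'.IsS j' y')
    (h2 : M.e j • v = v) : M'.e j' • v' = v' := by
  refine M'.ext_e fun i' => ?_
  by_cases hi : i' = j'
  · rw [hi, M'.e_e]
  · obtain ⟨z, z', i, h3, h3', hz⟩ := bw_isS M M' B h [(M.ι y, M'.ι y'), (M.ι v, M'.ι v')]
      (by simp [*]) (by simp) i'
    have h4 : i ≠ j := fun h5 => hi
      ((t_pteq M M' B hz (y := z) (z := y) (by simp) (by simp) h3 h3' h1 h1').mp h5)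
    rw [M'.e_e_ne hi, (t_supp_iff M M' B hz (n := v) (n' := v') (by simp) (by simp) h3 h3').mp
      (by rw [← h2, M.e_e_ne h4])]

theorem t_full (h : B.E (r + 6) l) {n0 : V} {n0' : V'} (h0 : (M.ι n0, M'.ι n0') ∈ l)
    (hf : M.Full n0) : M'.Full n0' := by
  intro j'
  obtain ⟨y, y', j, h1, h1', hy⟩ := bw_isS M M' B h [(M.ι n0, M'.ι n0')] (by simp [*])
    (by simp) j'
  obtain ⟨z', hz⟩ := vfw M M' B hy _ (List.Subset.refl _) (by simp) (M.e j • n0)
  have h2 : M'.IsS j' z' := t_isS M M' B hz (by simp) (by simp) h1 h1' (hf j)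
  have h3 := t_eqj M M' B hz (v := n0) (v' := n0') (w := M.e j • n0) (w' := z')
    (by simp) (by simp) (by simp) h1 h1' (M.e_e _ _).symm
  rw [h3, h2.e_self]
  exact h2

theorem t_base (h : B.E (r + 7) l) {n0 n1 : V} {n0' n1' : V'} (h0 : (M.ι n0, M'.ι n0') ∈ l)
    (h1 : (M.ι n1, M'.ι n1') ∈ l) {g : J → Q} (hb : M.Base n0 n1 g) :
    ∃ g', M'.Base n0' n1' g' := by
  have key : ∀ j', ∃ g' : Q', M'.At n0' n1' j' g' ∧
      ∀ q, ∃ a : ℤ, M'.χ j' q = M'.χ j' g' ^ a := by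
    intro j'
    obtain ⟨y, y', j, h2, h2', hy⟩ := bw_isS M M' B h [(M.ι n0, M'.ι n0'), (M.ι n1, M'.ι n1')]
      (by simp [*]) (by simp) j'
    obtain ⟨a, ha⟩ := M.π_surj (g j)
    obtain ⟨a', h3⟩ := B.fw hy _ (List.Subset.refl _) (by simp) a
    refine ⟨M'.π a', t_at M M' B h3 (n0 := n0) (n := n1) (g := a) (by simp) (by simp) (by simp)
      (by simp) h2 h2' (ha ▸ hb.at1 j), fun q' => ?_⟩
    obtain ⟨b', rfl⟩ := M'.π_surj q'
    obtain ⟨b, h4⟩ := B.bw h3 _ (List.Subset.refl _) (by simp) b'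
    obtain ⟨n, hn⟩ := hb.gen j (M.π b)
    exact ⟨n, t_χpow M M' B h4 (a := b) (b := a) (by simp) (by simp) (by simp) h2 h2' n
      (ha ▸ hn)⟩
  choose g' h2 h3 using key
  exact ⟨g', t_full M M' B h h0 hb.full, h2, h3⟩

section Base

variable {n0 n1 : V} {n0' n1' : V'} {g : J → Q} {g' : J' → Q'}

theorem t_gen (h : B.E (r + 6) l) (hb : M.Base n0 n1 g) (hb' : M'.Base n0' n1' g')
    (h0 : (M.ι n0, M'.ι n0') ∈ l) (h1 : (M.ι n1, M'.ι n1') ∈ l)
    {y : V} {y' : V'} (hy : (M.ι y, M'.ι y') ∈ l) {j : J} {j' : J'}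
    (h2 : M.IsS j y) (h2' : M'.IsS j' y') (l₀ : List (G × K)) (h₀ : l₀ ⊆ l)
    (hl : l₀.length ≤ 5) :
    ∃ a a', M.π a = g j ∧ M'.χ j' (M'.π a') = M'.χ j' (g' j') ∧
      B.E (r + 5) ((a, a') :: (M.ι y, M'.ι y') :: l₀) := by
  obtain ⟨a, ha⟩ := M.π_surj (g j)
  obtain ⟨a', h3⟩ := B.fw h ((M.ι y, M'.ι y') :: (M.ι n0, M'.ι n0') :: (M.ι n1, M'.ι n1') :: l₀)
    (by simp [*]) (by simp; omega) a
  refine ⟨a, a', ha, Md.At.uniq hb'.full (t_at M M' B h3 (n0 := n0) (n := n1) (g := a)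
    (by simp) (by simp) (by simp) (by simp) h2 h2' (ha ▸ hb.at1 j)) (hb'.at1 j'),
    B.mono ?_ h3⟩
  intro x hx
  simp only [List.mem_cons] at hx ⊢
  tauto

theorem t_pow_one (h : B.E (r + 6) l) (hb : M.Base n0 n1 g) (hb' : M'.Base n0' n1' g')
    (h0 : (M.ι n0, M'.ι n0') ∈ l) (h1 : (M.ι n1, M'.ι n1') ∈ l)
    {y : V} {y' : V'} (hy : (M.ι y, M'.ι y') ∈ l) {j : J} {j' : J'}
    (h2 : M.IsS j y) (h2' : M'.IsS j' y') (n : ℕ) (hn : M.χ j (g j) ^ n = 1) :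
    M'.χ j' (g' j') ^ n = 1 := by
  obtain ⟨a, a', ha, ha', h3⟩ := t_gen M M' B h hb hb' h0 h1 hy h2 h2' [] (by simp) (by simp)
  obtain ⟨c', h4⟩ := B.fw h3 _ (List.Subset.refl _) (by simp) 1
  have h5 : c' = 1 := (B.one h4 (a := 1) (by simp)).mp rfl
  have h6 := t_χpow M M' B h4 (a := 1) (a' := c') (b := a) (b' := a') (by simp) (by simp)
    (by simp) h2 h2' n (by rw [ha, zpow_natCast, hn, map_one, map_one])
  rw [h5, map_one, map_one, ha', zpow_natCast] at h6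
  exact h6.symm

theorem t_order (h : B.E (r + 6) l) (hb : M.Base n0 n1 g) (hb' : M'.Base n0' n1' g')
    (h0 : (M.ι n0, M'.ι n0') ∈ l) (h1 : (M.ι n1, M'.ι n1') ∈ l)
    {y : V} {y' : V'} (hy : (M.ι y, M'.ι y') ∈ l) {j : J} {j' : J'}
    (h2 : M.IsS j y) (h2' : M'.IsS j' y') :
    orderOf (M.χ j (g j)) = orderOf (M'.χ j' (g' j')) :=
  orderOf_eq_orderOf_iff.mpr fun n => ⟨t_pow_one M M' B h hb hb' h0 h1 hy h2 h2' n,
    t_pow_one M' M B.symm (B.swap h) hb' hb (mem_swap h0) (mem_swap h1) (mem_swap hy) h2' h2 n⟩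

theorem t_val (h : B.E (r + 7) l) (hb : M.Base n0 n1 g) (hb' : M'.Base n0' n1' g')
    (h0 : (M.ι n0, M'.ι n0') ∈ l) (h1 : (M.ι n1, M'.ι n1') ∈ l)
    {y n : V} {y' n' : V'} (hy : (M.ι y, M'.ι y') ∈ l) (hn : (M.ι n, M'.ι n') ∈ l)
    {j : J} {j' : J'} (h2 : M.IsS j y) (h2' : M'.IsS j' y') {a a' : ℤ}
    (h3 : M.At n0 n j (g j ^ a)) (h3' : M'.At n0' n' j' (g' j' ^ a')) :
    a ≡ a' [ZMOD orderOf (M.χ j (g j))] := by
  obtain ⟨b, b', hb1, hb2, h4⟩ := t_gen M M' B h hb hb' h0 h1 hy h2 h2'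
    [(M.ι n0, M'.ι n0'), (M.ι n, M'.ι n')] (by simp [*]) (by simp)
  obtain ⟨c', h5⟩ := B.fw h4 _ (List.Subset.refl _) (by simp) (b ^ a)
  have h6 : b' ^ a = c' := B.zpow a h5 (a := b) (b := b ^ a) (by simp) (by simp) rfl
  have h7 := t_at M M' B h5 (n0 := n0) (n0' := n0') (n := n) (n' := n') (g := b ^ a) (g' := c')
    (by simp) (by simp) (by simp) (by simp) h2 h2' (by rwa [map_zpow, hb1])
  have h8 := Md.At.uniq hb'.full h7 h3'
  rw [← h6, map_zpow, map_zpow, map_zpow, hb2, zpow_eq_zpow_iff_modEq] at h8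
  rwa [t_order M M' B h hb hb' h0 h1 hy h2 h2']

theorem t_vec (h : B.E (r + 8) l) (hl : l.length ≤ k) (hb : M.Base n0 n1 g) (hb' : M'.Base n0' n1' g')
    (h0 : (M.ι n0, M'.ι n0') ∈ l) (a : J → ℤ) :
    ∃ (a' : J' → ℤ) (n : V) (n' : V'), B.E (r + 7) ((M.ι n, M'.ι n') :: l) ∧
      (∀ j, M.At n0 n j (g j ^ a j)) ∧ (∀ j', M'.At n0' n' j' (g' j' ^ a' j')) ∧
      ∀ D : ℕ, (∃ q : Q, q ^ D = 1 ∧ ∀ j, M.χ j q = M.χ j (g j) ^ a j) →
        ∃ q' : Q', q' ^ D = 1 ∧ ∀ j', M'.χ j' q' = M'.χ j' (g' j') ^ a' j' := by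
  obtain ⟨n, hn⟩ := M.exists_vec n0 fun j => g j ^ a j
  obtain ⟨f, hf⟩ := vext M M' B h hl
  have h1 := hf n
  have key : ∀ j', ∃ a' : ℤ, M'.At n0' (f n) j' (g' j' ^ a') := by
    intro j'
    obtain ⟨y, y', j, h2, h2', hy⟩ := bw_isS M M' B h1
      [(M.ι n0, M'.ι n0'), (M.ι n, M'.ι (f n))] (by simp [*]) (by simp) j'
    obtain ⟨b, hb1⟩ := M.π_surj (g j ^ a j)
    obtain ⟨b', h3⟩ := B.fw hy _ (List.Subset.refl _) (by simp) b
    have h4 := t_at M M' B h3 (n0 := n0) (n0' := n0') (n := n) (n' := f n) (g := b) (g' := b')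
      (by simp) (by simp) (by simp) (by simp) h2 h2' (hb1 ▸ hn j)
    obtain ⟨a', ha'⟩ := hb'.gen j' (M'.π b')
    exact ⟨a', Md.At.congr hb'.full h4 (by rw [ha', map_zpow])⟩
  choose a' ha' using key
  refine ⟨a', n, f n, h1, hn, ha', ?_⟩
  rintro D ⟨q, hq, hq'⟩
  obtain ⟨b, rfl⟩ := M.π_surj q
  obtain ⟨b', h3⟩ := B.fw h1 [(M.ι n0, M'.ι n0'), (M.ι n, M'.ι (f n))] (by simp [*]) (by simp) b
  have h4 : n = M.ρ (M.π b) • n0 := M.at_all.mp fun j =>
    Md.At.congr hb.full (hn j) (by rw [hq', map_zpow])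
  have h5 := t_act M M' B h3 (g := b) (g' := b') (v := n0) (v' := n0') (w := n) (w' := f n)
    (by simp) (by simp) (by simp) h4.symm
  refine ⟨M'.π b', (t_qpow M M' B D h3 (by simp)).mp hq, fun j' => ?_⟩
  rw [← map_zpow]
  exact Md.At.uniq hb'.full (M'.at_all.mpr h5.symm j') (ha' j')

end Base

variable [Finite Q] [Finite Q']
  {n0 n1 : V} {n0' n1' : V'} {g : J → Q} {g' : J' → Q'}

theorem ext_pt (h : B.E (r + 4) l) (hl : l.length + 1 ≤ k) :
    ∃ b : J ≃ J', ∀ j, ∃ y y', M.IsS j y ∧ M'.IsS (b j) y' ∧ B.E (r + 3) ((M.ι y, M'.ι y') :: l) := by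
  classical
  obtain ⟨f, hf⟩ := vext M M' B h (by omega)
  have hs : ∀ v, (∃ j, M.IsS j v) ↔ ∃ j', M'.IsS j' (f v) := fun v => by
    rw [← M.simple_iff, ← M'.simple_iff]
    exact ⟨t_simple M M' B (hf v) (by simp),
      t_simple M' M B.symm (B.swap (hf v)) (z := f v) (z' := v) (by simp)⟩
  let p : {v // ∃ j, M.IsS j v} → J := fun x => x.2.choose
  let p' : {v // ∃ j, M'.IsS j v} → J' := fun x => x.2.choose
  have hp : ∀ x j, p x = j ↔ M.IsS j x.1 := fun x j =>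
    ⟨fun h => h ▸ x.2.choose_spec, fun h => h.uniq x.2.choose_spec⟩
  have hp' : ∀ x j, p' x = j ↔ M'.IsS j x.1 := fun x j =>
    ⟨fun h => h ▸ x.2.choose_spec, fun h => h.uniq x.2.choose_spec⟩
  obtain ⟨c, hc⟩ := hall_fibre p p'
    (fun j => by
      obtain ⟨y, hy⟩ := M.exists_isS j
      exact ⟨⟨y, j, hy⟩, (hp _ _).mpr hy⟩)
    (fun j => by
      obtain ⟨y, hy⟩ := M'.exists_isS j
      exact ⟨⟨y, j, hy⟩, (hp' _ _).mpr hy⟩)
    (f.subtypeEquiv hs) fun x => by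
      obtain ⟨f₁, hf₁⟩ := vext M M' B (hf x.1) (by simpa using hl)
      have hs₁ : ∀ v, (∃ j, M.IsS j v) ↔ ∃ j', M'.IsS j' (f₁ v) := fun v => by
        rw [← M.simple_iff, ← M'.simple_iff]
        exact ⟨t_simple M M' B (hf₁ v) (by simp),
          t_simple M' M B.symm (B.swap (hf₁ v)) (z := f₁ v) (z' := v) (by simp)⟩
      rw [← Nat.card_coe_set_eq, ← Nat.card_coe_set_eq]
      refine Nat.card_congr ((f₁.subtypeEquiv hs₁).subtypeEquiv fun z => ?_)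
      exact t_pteq M M' B (hf₁ z.1) (y := z.1) (y' := f₁ z.1) (z := x.1) (z' := f x.1)
        (by simp) (by simp) ((hp _ _).mp rfl) ((hp' ⟨_, (hs₁ _).mp z.2⟩ _).mp rfl)
        ((hp _ _).mp rfl) ((hp' ⟨_, (hs _).mp x.2⟩ _).mp rfl)
  refine ⟨c, fun j => ?_⟩
  obtain ⟨x, h1, h2⟩ := hc j
  exact ⟨x.1, f x.1, (hp _ _).mp h1, (hp' _ _).mp h2, hf _⟩

omit [Finite V] [Finite V'] [Finite Q] [Finite Q'] in
theorem rot {a b c : G × K} (h : B.E r (c :: a :: b :: l)) :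
    B.E r (a :: b :: c :: l) := by
  refine B.mono (fun x hx => ?_) h
  simp only [List.mem_cons] at hx ⊢
  tauto

/-- The abstract system attached to a back-and-forth system with matched base data. -/
noncomputable def toSys (κ : ℕ) (hk : κ + 3 ≤ k) (hb : M.Base n0 n1 g)
    (hb' : M'.Base n0' n1' g') : Sys J J' (G × K) κ where
  W r l := B.E (r + 8) ((M.ι n0, M'.ι n0') :: (M.ι n1, M'.ι n1') :: l)
  Pt ω j j' := ∃ y y', ω = (M.ι y, M'.ι y') ∧ M.IsS j y ∧ M'.IsS j' y'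
  m j := orderOf (M.χ j (g j))
  m' j := orderOf (M'.χ j (g' j))
  Λ := Lam M g
  Λ' := Lam M' g'
  m_pos j := by
    rw [orderOf_pos_iff]
    exact (M.χ j).isOfFinOrder (isOfFinOrder_of_finite _)
  Λ_mono := lam_mono M g
  mem_Λ := mem_lam M g
  mem_Λ' := mem_lam M' g'
  mono l l' h := B.mono (List.cons_subset_cons _ (List.cons_subset_cons _ h))
  le h := B.le (by omega)
  pt_m := by
    rintro _ j j' h ⟨y, y', rfl, h1, h1'⟩
    exact t_order M M' B h hb hb' (by simp) (by simp) (by simp) h1 h1'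
  pt_eq := by
    rintro _ _ j j' i i' h ⟨y, y', rfl, h1, h1'⟩ ⟨z, z', rfl, h2, h2'⟩
    exact t_pteq M M' B h (by simp) (by simp) h1 h1' h2 h2'
  extPt l h hl := by
    obtain ⟨b, hb⟩ := ext_pt M M' B h (by simp; omega)
    refine ⟨b, fun j => ?_⟩
    obtain ⟨y, y', h1, h2, h3⟩ := hb j
    exact ⟨_, ⟨y, y', rfl, h1, h2⟩, rot B h3⟩
  extSet l h hl S := by
    classical
    obtain ⟨n, hn⟩ := M.exists_comp fun j => if j ∈ S then n0 else 0
    obtain ⟨f, hf⟩ := vext M M' B h (by simp; omega)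
    refine ⟨{j' | M'.e j' • f n ≠ 0}, _, rot B (hf n), ?_⟩
    rintro _ j j' h1 ⟨y, y', rfl, h2, h2'⟩
    rw [Set.mem_ofPred_eq, Ne, ← t_supp_iff M M' B h1 (n := n) (by simp) (by simp) h2 h2', hn]
    by_cases hj : j ∈ S
    · simp only [hj, if_true, true_iff]
      exact (hb.full j).1
    · simp [hj]
  extVec l h hl a := by
    obtain ⟨a', n, n', h1, h2, h3, h4⟩ := t_vec M M' B h (by simp; omega) hb hb' (by simp) a
    refine ⟨a', _, rot B h1, fun i => h4 _, ?_⟩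
    rintro _ j j' h5 ⟨y, y', rfl, h6, h6'⟩
    exact t_val M M' B h5 hb hb' (by simp) (by simp) (by simp) (by simp) h6 h6' (h2 j) (h3 j')
  extVec' l h hl a' := by
    obtain ⟨a, n', n, h1, h2, h3, h4⟩ := t_vec M' M B.symm (B.swap h) (by simp; omega) hb' hb
      (by simp) a'
    refine ⟨a, _, rot B (B.unswap h1), fun i => h4 _, ?_⟩
    rintro _ j j' h5 ⟨y, y', rfl, h6, h6'⟩
    exact t_val M M' B h5 hb hb' (by simp) (by simp) (by simp) (by simp) h6 h6' (h3 j) (h2 j')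

theorem exists_alpha [Finite G] [Finite K]
    (h : B.E (r + 1) [(M.ι n0, M'.ι n0')]) (hb : M.Base n0 n1 g) (hb' : M'.Base n0' n1' g') (σ : J ≃ J')
    (hm : ∀ j, orderOf (M.χ j (g j)) = orderOf (M'.χ (σ j) (g' (σ j))))
    (hΛ : ∀ i (v : J' → ℤ), (fun j => v (σ j)) ∈ Lam M g i ↔ v ∈ Lam M' g' i) :
    ∃ α : Q ≃* Q', ∀ j q (a : ℤ), M.χ j q = M.χ j (g j) ^ a →
      M'.χ (σ j) (α q) = M'.χ (σ j) (g' (σ j)) ^ a := by
  classical
  choose L hL using fun j => M.exists_log j (g j) (hb.gen j) _ rfl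
  choose L' hL' using fun j => M'.exists_log (σ j) (g' (σ j)) (hb'.gen (σ j)) _ (hm j).symm
  let f : Additive Q →+ ((j : J) → ZMod (orderOf (M.χ j (g j)))) := Pi.addMonoidHom L
  let f' : Additive Q' →+ ((j : J) → ZMod (orderOf (M.χ j (g j)))) := Pi.addMonoidHom L'
  have himg : ∀ i (c : (j : J) → ZMod (orderOf (M.χ j (g j)))),
      (∃ x, DD i • x = 0 ∧ f x = c) ↔ ∃ x, DD i • x = 0 ∧ f' x = c := by
    intro i c
    choose v hv using fun j => ZMod.intCast_surjective (c j)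
    have h1 := hΛ i fun j' => v (σ.symm j')
    simp only [Equiv.symm_apply_apply] at h1
    have e1 : (∃ x, DD i • x = 0 ∧ f x = c) ↔ (fun j => v j) ∈ Lam M g i := by
      constructor
      · rintro ⟨x, hx, hc⟩
        exact ⟨x.toMul, hx, fun j => (hL j _ _).mpr (by rw [hv, ← hc]; rfl)⟩
      · rintro ⟨q, hq, hc⟩
        exact ⟨Additive.ofMul q, hq, funext fun j => by rw [← hv, ← (hL j _ _).mp (hc j)]; rfl⟩
    have e2 : (∃ x, DD i • x = 0 ∧ f' x = c) ↔ (fun j' => v (σ.symm j')) ∈ Lam M' g' i := by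
      constructor
      · rintro ⟨x, hx, hc⟩
        refine ⟨x.toMul, hx, fun j' => ?_⟩
        obtain ⟨j, rfl⟩ := σ.surjective j'
        simp only [Equiv.symm_apply_apply]
        exact (hL' j _ _).mpr (by rw [hv, ← hc]; rfl)
      · rintro ⟨q, hq, hc⟩
        refine ⟨Additive.ofMul q, hq, funext fun j => ?_⟩
        have := hc (σ j)
        simp only [Equiv.symm_apply_apply] at this
        rw [← hv, ← (hL' j _ _).mp this]; rfl
    rw [e1, e2, h1]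
  have hker : ∀ n : ℕ, Nat.card {x : Additive Q // n • x = 0 ∧ f x = 0} =
      Nat.card {x : Additive Q' // n • x = 0 ∧ f' x = 0} := by
    intro n
    obtain ⟨c, hc⟩ := qext M M' B h (by simpa using (by have := B.big; omega : 1 ≤ k))
    refine Nat.card_congr ((Additive.toMul.trans (c.trans Additive.ofMul)).subtypeEquiv
      fun x => ?_)
    obtain ⟨a, a', h1, h2, h3⟩ := hc x.toMul
    have e1 : f x = 0 ↔ M.ρ (M.π a) • n0 = n0 := by
      rw [eq_comm (b := n0), ← M.at_all, h1, funext_iff]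
      refine forall_congr' fun j => ?_
      have := hL j x.toMul 0
      rw [zpow_zero, Int.cast_zero] at this
      refine Iff.trans this.symm ?_
      rw [← map_one (M.χ j), (hb.full j).χ_iff, map_one, one_smul, Md.At, eq_comm]
    have e2 : f' (Additive.ofMul (c x.toMul)) = 0 ↔ M'.ρ (M'.π a') • n0' = n0' := by
      rw [eq_comm (b := n0'), ← M'.at_all, h2, funext_iff, σ.surjective.forall]
      refine forall_congr' fun j => ?_
      have := hL' j (c x.toMul) 0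
      rw [zpow_zero, Int.cast_zero] at this
      refine Iff.trans this.symm ?_
      rw [← map_one (M'.χ (σ j)), (hb'.full (σ j)).χ_iff, map_one, one_smul, Md.At, eq_comm]
    refine and_congr ?_ (e1.trans (Iff.trans ?_ e2.symm))
    · have := t_qpow M M' B n h3 (g := a) (g' := a') (by simp)
      rw [h1, h2] at this
      exact this
    · exact ⟨t_act M M' B h3 (by simp) (by simp) (by simp),
        t_act M' M B.symm (B.swap h3) (by simp) (by simp) (by simp)⟩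
  obtain ⟨α, hα⟩ := lovasz_abelian f f' fun p r c hp => by
    by_cases hc : ∃ x, p ^ r • x = 0 ∧ f x = c
    · obtain ⟨x', h1', h2'⟩ := img_transfer f f' (fun i c => (himg i c).mp) p r hp c hc
      obtain ⟨x, h1, h2⟩ := hc
      rw [card_fibre f _ c x h1 h2, card_fibre f' _ c x' h1' h2', hker]
    · have hc' : ¬ ∃ x, p ^ r • x = 0 ∧ f' x = c := fun h' =>
        hc (img_transfer f' f (fun i c => (himg i c).mpr) p r hp c h')
      have : IsEmpty {x : Additive Q // p ^ r • x = 0 ∧ f x = c} := ⟨fun x => hc ⟨x.1, x.2⟩⟩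
      have : IsEmpty {x : Additive Q' // p ^ r • x = 0 ∧ f' x = c} := ⟨fun x => hc' ⟨x.1, x.2⟩⟩
      rw [Nat.card_of_isEmpty, Nat.card_of_isEmpty]
  refine ⟨
    { toEquiv := Additive.ofMul.trans (α.toEquiv.trans Additive.toMul)
      map_mul' := fun x y => congrArg Additive.toMul
        (map_add α (Additive.ofMul x) (Additive.ofMul y)) }, fun j q a ha => ?_⟩
  refine (hL' j _ a).mpr ?_
  rw [← (hL j q a).mp ha]
  exact congrFun (hα (Additive.ofMul q)) j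

omit [Finite V] [Finite V'] [Finite Q] [Finite Q'] in
theorem t_pair
    (hP : ∀ {r l} {a y x : G × K} {z'}, B.E r l → a ∈ l → y ∈ l → (x.1, z') ∈ l → Ab (Pj a y) →
      x ∈ Subgroup.closure (Pj a y) → x.2 = z')
    (α : Q ≃* Q') {j : J} {j' : J'} {y : V} {y' : V'}
    (h1 : M.IsS j y) (h1' : M'.IsS j' y') {a : G} {a' : K}
    (hα : ∀ q, ∃ n : ℤ, M.χ j q = M.χ j (M.π a) ^ n ∧ M'.χ j' (α q) = M'.χ j' (M'.π a') ^ n)
    (x : R × R')
    (hx : x ∈ AddSubgroup.closure (Set.range (M.ρ.prod (M'.ρ.comp α.toMonoidHom))))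
    (h : B.E r l) (hy : (M.ι y, M'.ι y') ∈ l) (ha : (a, a') ∈ l) {z' : V'}
    (hz : (M.ι (x.1 • y), M'.ι z') ∈ l) : x.2 • y' = z' := by
  have e : Subgroup.closure (Pj (a, a') (M.ι y, M'.ι y')) ≤
      (Subgroup.closure (Cj (M.ι y))).prod (Subgroup.closure (Cj (M'.ι y'))) :=
    (Subgroup.closure_le _).2 (by
      rintro _ ⟨n, rfl⟩
      exact ⟨Subgroup.subset_closure ⟨_, rfl⟩, Subgroup.subset_closure ⟨_, rfl⟩⟩)
  refine M'.ι_inj (hP (x := (M.ι (x.1 • y), M'.ι (x.2 • y'))) h ha hy hz (fun u hu v hv =>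
    Prod.ext (ab_cj M y _ (e hu).1 _ (e hv).1) (ab_cj M' y' _ (e hu).2 _ (e hv).2)) ?_)
  clear hz
  induction hx using AddSubgroup.closure_induction with
  | mem x hx =>
    obtain ⟨q, rfl⟩ := hx
    obtain ⟨n, hn, hn'⟩ := hα q
    rw [← map_zpow, ← map_zpow, h1.χ_iff] at hn
    rw [← map_zpow, ← map_zpow, h1'.χ_iff] at hn'
    refine Subgroup.subset_closure ⟨n, Prod.ext ?_ ?_⟩
    · exact (M.conj _ y).symm.trans (congrArg M.ι hn.symm)
    · exact (M'.conj _ y').symm.trans (congrArg M'.ι hn'.symm)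
  | zero =>
    simp only [Prod.fst_zero, Prod.snd_zero, zero_smul, Md.ι_zero]
    exact one_mem _
  | add b c _ _ hb hc =>
    simp only [Prod.fst_add, Prod.snd_add, add_smul, Md.ι_add]
    exact mul_mem hb hc
  | neg b _ hb =>
    simp only [Prod.fst_neg, Prod.snd_neg, neg_smul, Md.ι_neg]
    exact inv_mem hb

omit [Finite V'] [Finite Q] [Finite Q'] in
theorem card_le (hb : M.Base n0 n1 g) : ∏ j, (orderOf (M.χ j (g j)) + 1) ≤ ν := by
  choose F hF using fun a : ∀ j, Option (Fin (orderOf (M.χ j (g j)))) =>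
    M.exists_comp fun j => (a j).elim 0 fun i => M.ρ (g j ^ i.1) • n0
  have h0 : ∀ j q, M.e j • M.ρ q • n0 ≠ 0 := fun j q h => (hb.full j).1 (by
    rw [← one_smul R (M.e j • n0), ← map_one M.ρ, ← inv_mul_cancel q, map_mul, mul_smul,
      smul_comm (M.ρ q), h, smul_zero])
  have := Nat.card_le_card_of_injective F fun a b h => funext fun j => by
    have e := (hF a j).symm.trans (h ▸ hF b j)
    rcases ha : a j with _ | i <;> rcases hb' : b j with _ | i' <;>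
      simp only [ha, hb', Option.elim, smul_zero] at e
    · rfl
    · exact absurd e.symm (h0 _ _)
    · exact absurd e (h0 _ _)
    · rw [smul_comm, smul_comm (M.e j), ← (hb.full j).χ_iff, map_pow, map_pow] at e
      exact congrArg some (Fin.ext (pow_injOn_Iio_orderOf i.2 i'.2 e))
  simpa [Nat.card_pi, M.cardV] using this

include M M' in
theorem iso_of_bf [Finite G] [Finite K] [Finite R]
    {q d : ℕ} (hq : ∀ n, IH q n) (hk : 4 * q + 7 + 3 ≤ k) (hd : ν < 2 ^ d)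
    (hP : ∀ {r l} {a y x : G × K} {z'}, B.E r l → a ∈ l → y ∈ l → (x.1, z') ∈ l → Ab (Pj a y) →
      x ∈ Subgroup.closure (Pj a y) → x.2 = z')
    (h : B.E (d * (d * d + 5 + 2 * q) + 12) []) : Nonempty (G ≃* K) := by
  obtain ⟨n0, n1, g, hb⟩ := M.exists_base
  obtain ⟨n1', h1⟩ := vfw M M' B h [] (by simp) (by simp) n1
  obtain ⟨n0', h0⟩ := vfw M M' B h1 _ (List.Subset.refl _) (by simp) n0
  obtain ⟨g', hb'⟩ := t_base M M' B h0 (n0' := n0') (n1' := n1') (by simp) (by simp) hb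
  have hc := card_le M hb
  have hJ : Nat.card J ≤ d := by
    have : ∏ _j : J, 2 ≤ _ := (Finset.prod_le_prod' fun j _ =>
      Nat.succ_le_succ ((toSys M M' B _ hk hb hb').m_pos j)).trans hc
    rw [Finset.prod_const, Finset.card_univ, ← Nat.card_eq_fintype_card] at this
    exact ((Nat.pow_lt_pow_iff_right one_lt_two).1 (this.trans_lt hd)).le
  obtain ⟨σ, hσ, hΛ⟩ := sysThm hq (toSys M M' B _ hk hb hb') (n := d)
    (((Finset.prod_le_prod' fun j _ => Nat.le_succ _).trans hc).trans hd.le) (B.le (by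
      rw [Nat.card_prod]
      have := Nat.mul_le_mul_left d (Nat.add_le_add_right (Nat.add_le_add_right
        (Nat.mul_le_mul hJ hJ) 5) (2 * q))
      omega) h0)
  have hσ' : ∀ j, ∃ y y', M.IsS j y ∧ M'.IsS (σ j) y' ∧
      B.E 8 [(M.ι n0, M'.ι n0'), (M.ι n1, M'.ι n1'), (M.ι y, M'.ι y')] := fun j => by
    obtain ⟨_, ⟨y, y', rfl, h2, h2'⟩, h3⟩ := hσ j
    exact ⟨y, y', h2, h2', h3⟩
  obtain ⟨α, hα⟩ := exists_alpha M M' B (B.mono (by simp) h0) hb hb' σ (fun j => by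
    obtain ⟨y, y', h2, h2', h3⟩ := hσ' j
    exact t_order M M' B h3 hb hb' (by simp) (by simp) (by simp) h2 h2') hΛ
  obtain ⟨β, hβ⟩ := M.glue M' α σ fun j => by
    obtain ⟨y, y', h2, h2', h3⟩ := hσ' j
    refine M.local_iso M' α j (σ j) (fun x hx => ?_) fun n => ?_
    · obtain ⟨a, a', ha, ha', h4⟩ := t_gen M M' B h3 hb hb' (by simp) (by simp) (by simp) h2 h2'
        [] (by simp) (by simp)
      obtain ⟨z', h5⟩ := vfw M M' B h4 _ (List.Subset.refl _) (by simp) (x.1 • y)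
      have h6 := t_pair M M' B hP α h2 h2' (a := a) (a' := a') (fun q => by
        obtain ⟨n, hn⟩ := hb.gen j q
        exact ⟨n, by rw [ha, hn], by rw [ha', hα j q n hn]⟩) x hx h5 (z' := z')
        (by simp) (by simp) (by simp)
      rw [← h2.ann, ← h2'.ann, h6]
      exact t_zero M M' B h5 (by simp)
    · obtain ⟨f, hf⟩ := vext M M' B h3 (by simpa using (by have := B.big; omega : 3 ≤ k))
      refine Nat.card_congr (f.subtypeEquiv fun v => and_congr ⟨?_, ?_⟩ ?_)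
      · exact t_block M M' B (hf v) (by simp) (by simp) h2 h2'
      · exact t_block M' M B.symm (B.swap (hf v)) (by simp) (by simp) h2' h2
      · exact t_nsmul M M' B n (hf v) (by simp)
  exact M.iso_of M' α β hβ

end

theorem rounds : ∃ k C : ℕ, 1 ≤ k ∧ ∀ (H N : Type) [CommGroup H] [CommGroup N] [Finite H]
    [Finite N] (θ : H →* MulAut N), (Nat.card H).Coprime (Nat.card N) →
    ∀ (K : Type) [Group K] [Finite K], IsEmpty ((N ⋊[θ] H) ≃* K) →
      WinsIn (C * (Nat.log 2 (Nat.card (N ⋊[θ] H)) + 1) ^ 3)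
        (fun _ : Fin (k + 1) => (none : Option ((N ⋊[θ] H) × K))) := by
  obtain ⟨q, hq⟩ := star
  refine ⟨4 * q + 15, 2 * q + 27, by omega, fun H N _ _ _ _ θ hc K _ _ hemp => ?_⟩
  by_contra hcon
  have : Finite (N ⋊[θ] H) := Finite.of_equiv _ SemidirectProduct.equivProd.symm
  have hd : Nat.card (N ⋊[θ] H) < 2 ^ (Nat.log 2 (Nat.card (N ⋊[θ] H)) + 1) :=
    Nat.lt_pow_succ_log_self one_lt_two _
  generalize hdd : Nat.log 2 (Nat.card (N ⋊[θ] H)) + 1 = d at hd hcon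
  have d1 : 1 ≤ d := by omega
  let B := ofGame (N ⋊[θ] H) K (4 * q + 15) (by omega)
  have h0 : B.E (2 * d + 1 + (4 * d + 2 + (d * (d * d + 5 + 2 * q) + 12))) [] :=
    B.le (by
      have e1 : d ≤ d ^ 3 := Nat.le_self_pow (by omega) d
      have e2 := Nat.mul_le_mul_left q e1
      nlinarith) ⟨_, hcon, by simp⟩
  obtain ⟨f, -⟩ := B.ext (r := 0) (B.le (by omega) h0) (by simp)
  have hK := Nat.card_congr f
  have hG := ctx_semidirect H N θ hc
  obtain ⟨V, R, Q, J, _, _, _, _, _, _, _, _, ⟨M⟩⟩ := exists_md _ hG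
  obtain ⟨V', R', Q', J', _, _, _, _, _, _, _, _, ⟨M'⟩⟩ := exists_md _
    (ctx_tr (r := 0) (B.up1 hK hd) ((B.up1 hK hd).le (by omega) h0) hG)
  refine hemp.false (iso_of_bf M M' ((B.up1 hK hd).up2 hK hd) hq (by omega) (d := d)
    (lt_of_le_of_lt ?_ hd) (fun h => (B.up1 hK hd).pr0 (d := 2 * d) ?_
      ((B.up1 hK hd).le (by omega) h)) h0).some
  · rw [hG.cardG]
    exact Nat.le_mul_of_pos_right _ Nat.card_pos
  · rw [Nat.card_prod, ← hK, two_mul, pow_add]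
    exact Nat.mul_lt_mul'' hd hd

/-- Along an isomorphism Duplicator never loses. -/
theorem not_winsIn {G K : Type} [Group G] [Group K] (φ : G ≃* K) {n : ℕ} (r : ℕ) :
    ∀ p : Fin n → Option (G × K), (∀ i a, p i = some a → a.2 = φ a.1) → ¬ WinsIn r p := by
  have key : ∀ p : Fin n → Option (G × K), (∀ i a, p i = some a → a.2 = φ a.1) →
      IsoOnPebbles p := fun p hp =>
    ⟨fun i j a b ha hb => by rw [hp i a ha, hp j b hb, φ.apply_eq_iff_eq],
     fun i j l a b c ha hb hc => by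
      rw [hp i a ha, hp j b hb, hp l c hc, ← map_mul, φ.apply_eq_iff_eq]⟩
  induction r with
  | zero => exact fun p hp h => h (key p hp)
  | succ r ih =>
    rintro p hp (h | ⟨i, h⟩)
    · exact h (key p hp)
    · obtain ⟨g, hg⟩ := h φ.toEquiv
      refine ih _ (fun j a ha => ?_) hg
      by_cases hj : j = i
      · subst hj
        rw [Function.update_self, Option.some.injEq] at ha
        subst ha
        rfl
      · rw [Function.update_of_ne hj] at ha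
        exact hp j a ha

end Pool.Agent.MP_88b4a2_lc.Rd
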